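import Pool.Agent.Run7.h128.SI.Jet

set_option autoImplicit false
set_option linter.unusedSectionVars false

/-!
# Third derivatives of the powers of the generic matrix
-/

namespace Run7.h432.ME

open Finset MvPolynomial Matrix Run7.h128.SI

variable {K : Type*} [Field K] {n : ℕ}

/-- a matrix as a point of the space of matrices -/
def vc (A : Matrix (Fin n) (Fin n) K) : Fin n × Fin n → K := fun v => A v.1 v.2

/-- the generic matrix -/
noncomputable abbrev Gn (K : Type*) [Field K] (n : ℕ) :
    Matrix (Fin n) (Fin n) (MvPolynomial (Fin n × Fin n) K) :=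
  Matrix.mvPolynomialX (Fin n) (Fin n) K

theorem map_dd_gen (A : Matrix (Fin n) (Fin n) K) : (Gn K n).map (dd (vc A)) = A.map C := by
  ext1 i j
  simp only [Matrix.map_apply, Matrix.mvPolynomialX_apply, dd_X, vc]

theorem map_dd_const (a : Fin n × Fin n → K) (A : Matrix (Fin n) (Fin n) K) :
    (A.map C).map (dd a) = 0 := by
  ext1 i j
  simp only [Matrix.map_apply, dd_C, Matrix.zero_apply]

theorem map_dd_mul (a : Fin n × Fin n → K)
    (M N : Matrix (Fin n) (Fin n) (MvPolynomial (Fin n × Fin n) K)) :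
    (M * N).map (dd a) = M.map (dd a) * N + M * N.map (dd a) := by
  ext1 i j
  simp only [Matrix.map_apply, Matrix.mul_apply, Matrix.add_apply, map_sum, dd_mul,
    sum_add_distrib]

theorem map_dd_add (a : Fin n × Fin n → K)
    (M N : Matrix (Fin n) (Fin n) (MvPolynomial (Fin n × Fin n) K)) :
    (M + N).map (dd a) = M.map (dd a) + N.map (dd a) := by
  ext1 i j
  simp only [Matrix.map_apply, Matrix.add_apply, map_add]

theorem map_dd_one (a : Fin n × Fin n → K) :
    (1 : Matrix (Fin n) (Fin n) (MvPolynomial (Fin n × Fin n) K)).map (dd a) = 0 := by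
  ext1 i j
  simp only [Matrix.map_apply, Matrix.zero_apply]
  by_cases h : i = j
  · subst h
    rw [Matrix.one_apply_eq, ← map_one (C (σ := Fin n × Fin n) (R := K)), dd_C]
  · rw [Matrix.one_apply_ne h, map_zero]

/-- evaluation at a point -/
noncomputable def ev (M : Matrix (Fin n) (Fin n) K) :
    Matrix (Fin n) (Fin n) (MvPolynomial (Fin n × Fin n) K) →+* Matrix (Fin n) (Fin n) K :=
  (eval (vc M)).mapMatrix

theorem ev_gen (M : Matrix (Fin n) (Fin n) K) : ev M (Gn K n) = M := by
  ext1 i j
  simp [ev, vc]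

theorem ev_const (M A : Matrix (Fin n) (Fin n) K) : ev M (A.map C) = A := by
  ext1 i j
  simp [ev]

/-- first derivatives of the powers -/
def D1 (M A : Matrix (Fin n) (Fin n) K) : ℕ → Matrix (Fin n) (Fin n) K
  | 0 => 0
  | e + 1 => D1 M A e * M + M ^ e * A

/-- second derivatives of the powers -/
def D2 (M A B : Matrix (Fin n) (Fin n) K) : ℕ → Matrix (Fin n) (Fin n) K
  | 0 => 0
  | e + 1 => D2 M A B e * M + D1 M B e * A + D1 M A e * B

/-- third derivatives of the powers -/
def D3 (M A B C : Matrix (Fin n) (Fin n) K) : ℕ → Matrix (Fin n) (Fin n) K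
  | 0 => 0
  | e + 1 => D3 M A B C e * M + D2 M B C e * A + D2 M A C e * B + D2 M A B e * C

theorem ev_D1 (M A : Matrix (Fin n) (Fin n) K) (e : ℕ) :
    ev M ((Gn K n ^ e).map (dd (vc A))) = D1 M A e := by
  induction e with
  | zero => rw [pow_zero, map_dd_one, map_zero, D1]
  | succ e ih =>
    rw [pow_succ, map_dd_mul, map_add, map_mul, map_mul, ih, map_dd_gen, ev_gen, ev_const,
      map_pow, ev_gen, D1]

theorem ev_D2 (M A B : Matrix (Fin n) (Fin n) K) (e : ℕ) :
    ev M (((Gn K n ^ e).map (dd (vc B))).map (dd (vc A))) = D2 M A B e := by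
  induction e with
  | zero =>
    rw [pow_zero, map_dd_one, D2]
    have : (0 : Matrix (Fin n) (Fin n) (MvPolynomial (Fin n × Fin n) K)).map (dd (vc A)) = 0 := by
      ext1 i j
      simp
    rw [this, map_zero]
  | succ e ih =>
    rw [pow_succ, map_dd_mul, map_dd_add, map_dd_mul, map_dd_mul, map_dd_gen, map_dd_gen,
      map_dd_const, mul_zero, add_zero, map_add, map_add, map_mul, map_mul, map_mul, ih, ev_gen,
      ev_const, ev_const, ev_D1, ev_D1, D2]

theorem ev_D3 (M A B C' : Matrix (Fin n) (Fin n) K) (e : ℕ) :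
    ev M ((((Gn K n ^ e).map (dd (vc C'))).map (dd (vc B))).map (dd (vc A))) =
      D3 M A B C' e := by
  induction e with
  | zero =>
    have h0 : ∀ a : Fin n × Fin n → K,
        (0 : Matrix (Fin n) (Fin n) (MvPolynomial (Fin n × Fin n) K)).map (dd a) = 0 := by
      intro a
      ext1 i j
      simp
    rw [pow_zero, map_dd_one, D3, h0, h0, map_zero]
  | succ e ih =>
    rw [pow_succ, map_dd_mul, map_dd_add, map_dd_mul, map_dd_mul, map_dd_gen, map_dd_gen,
      map_dd_const, mul_zero, add_zero, map_dd_add, map_dd_add, map_dd_mul, map_dd_mul,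
      map_dd_mul, map_dd_gen, map_dd_const, map_dd_const, mul_zero, mul_zero, add_zero, add_zero,
      map_add, map_add, map_add, map_mul, map_mul, map_mul, map_mul, ih, ev_gen,
      ev_const, ev_const, ev_const, ev_D2, ev_D2, ev_D2, D3]

/-- the directions in which the third derivative is a single product -/
structure Chain (M A B C : Matrix (Fin n) (Fin n) K) : Prop where
  MB : M * B = 0
  MC : M * C = 0
  AM : A * M = 0
  BM : B * M = 0
  AC : A * C = 0
  BA : B * A = 0
  CA : ∀ t, C * M ^ t * A = 0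
  CB : ∀ t, C * M ^ t * B = 0

theorem pow_aux {M A B : Matrix (Fin n) (Fin n) K} (h1 : A * M = 0) (h0 : A * B = 0) (t : ℕ) :
    A * M ^ t * B = 0 := by
  cases t with
  | zero => rw [pow_zero, mul_one, h0]
  | succ t => rw [pow_succ', ← mul_assoc, h1, zero_mul, zero_mul]

section

variable {M A B C' : Matrix (Fin n) (Fin n) K} (h : Chain M A B C')
include h

theorem D1c_A (e t : ℕ) : D1 M C' e * M ^ t * A = 0 := by
  induction e generalizing t with
  | zero => rw [D1, zero_mul, zero_mul]
  | succ e ih =>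
    rw [D1, add_mul, add_mul]
    have e1 : D1 M C' e * M * M ^ t * A = D1 M C' e * M ^ (t + 1) * A := by
      rw [pow_succ', ← mul_assoc]
    have e2 : M ^ e * C' * M ^ t * A = M ^ e * (C' * M ^ t * A) := by
      simp only [mul_assoc]
    rw [e1, ih, e2, h.CA, mul_zero, add_zero]

theorem D2bc_A (e t : ℕ) : D2 M B C' e * M ^ t * A = 0 := by
  induction e generalizing t with
  | zero => rw [D2, zero_mul, zero_mul]
  | succ e ih =>
    rw [D2, add_mul, add_mul, add_mul, add_mul]
    have e1 : D2 M B C' e * M * M ^ t * A = D2 M B C' e * M ^ (t + 1) * A := by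
      rw [pow_succ', ← mul_assoc]
    have e2 : D1 M C' e * B * M ^ t * A = D1 M C' e * (B * M ^ t * A) := by
      simp only [mul_assoc]
    have e3 : D1 M B e * C' * M ^ t * A = D1 M B e * (C' * M ^ t * A) := by
      simp only [mul_assoc]
    rw [e1, ih, e2, e3, h.CA, pow_aux h.BM h.BA, mul_zero, mul_zero, add_zero, add_zero]

theorem D2ac_B (e t : ℕ) : D2 M A C' e * M ^ t * B = 0 := by
  induction e generalizing t with
  | zero => rw [D2, zero_mul, zero_mul]
  | succ e ih =>
    rw [D2, add_mul, add_mul, add_mul, add_mul]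
    have e1 : D2 M A C' e * M * M ^ t * B = D2 M A C' e * M ^ (t + 1) * B := by
      rw [pow_succ', ← mul_assoc]
    have e2 : D1 M C' e * A * M ^ t * B = 0 := by
      have := D1c_A h e 0
      rw [pow_zero, mul_one] at this
      rw [this, zero_mul, zero_mul]
    have e3 : D1 M A e * C' * M ^ t * B = D1 M A e * (C' * M ^ t * B) := by
      simp only [mul_assoc]
    rw [e1, ih, e2, e3, h.CB, mul_zero, add_zero, add_zero]

theorem D1a_B (e : ℕ) : D1 M A (e + 1) * B = M ^ e * A * B := by
  rw [D1, add_mul, mul_assoc, h.MB, mul_zero, zero_add]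

theorem D2ab_C (e : ℕ) : D2 M A B (e + 1) * C' = D1 M A e * B * C' := by
  rw [D2, add_mul, add_mul, mul_assoc _ M, h.MC, mul_zero, zero_add, mul_assoc _ A, h.AC,
    mul_zero, zero_add]

theorem D3_rec (e : ℕ) : D3 M A B C' (e + 1) = D3 M A B C' e * M + D2 M A B e * C' := by
  have h1 := D2bc_A h e 0
  have h2 := D2ac_B h e 0
  rw [pow_zero, mul_one] at h1 h2
  rw [D3, h1, h2, add_zero, add_zero]

theorem D3_small : D3 M A B C' 2 = 0 := by
  rw [D3_rec h, D3_rec h, D2ab_C h]
  simp [D1, D2, D3]

/-- **the third derivatives of the powers** -/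
theorem D3_eq (e : ℕ) : D3 M A B C' (e + 3) =
    ∑ s ∈ range (e + 1), M ^ s * (A * B * C') * M ^ (e - s) := by
  induction e with
  | zero =>
    rw [D3_rec h, D3_small h, D2ab_C h, D1a_B h]
    simp
  | succ e ih =>
    have e1 : e + 1 + 3 = (e + 3) + 1 := by ring
    rw [e1, D3_rec h, ih, D2ab_C h, D1a_B h, sum_range_succ _ (e + 1), sum_mul]
    congr 1
    · refine sum_congr rfl fun s hs => ?_
      have : e + 1 - s = (e - s) + 1 := by
        have := mem_range.1 hs
        omega
      rw [this, pow_succ]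
      simp only [mul_assoc]
    · simp only [Nat.sub_self, pow_zero, mul_one, mul_assoc]

end

/-- the third derivative of the trace of `W p(X)` -/
theorem third_trace {M A B C' : Matrix (Fin n) (Fin n) K} (h : Chain M A B C')
    (p : Polynomial K) (W : Matrix (Fin n) (Fin n) K) :
    eval (vc M) (dd (vc A) (dd (vc B) (dd (vc C')
      (Matrix.trace (W.map C * Polynomial.aeval (Gn K n) p))))) =
    ∑ e ∈ range (p.natDegree + 1), p.coeff (e + 3) *
      ∑ s ∈ range (e + 1), Matrix.trace (W * (M ^ s * (A * B * C') * M ^ (e - s))) := by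
  have key : ∀ e, eval (vc M) (dd (vc A) (dd (vc B) (dd (vc C')
      (Matrix.trace (W.map C * Gn K n ^ e))))) = Matrix.trace (W * D3 M A B C' e) := by
    intro e
    rw [← ev_D3]
    have h1 : ∀ (a : Fin n × Fin n → K)
        (N : Matrix (Fin n) (Fin n) (MvPolynomial (Fin n × Fin n) K)),
        dd a (Matrix.trace (W.map C * N)) = Matrix.trace (W.map C * N.map (dd a)) := by
      intro a N
      have h2 : Matrix.trace ((W.map C * N).map (dd a)) = dd a (Matrix.trace (W.map C * N)) := by
        unfold Matrix.trace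
        rw [map_sum]
        rfl
      rw [← h2, map_dd_mul, map_dd_const, zero_mul, zero_add]
    rw [h1, h1, h1]
    have h3 : ∀ N : Matrix (Fin n) (Fin n) (MvPolynomial (Fin n × Fin n) K),
        eval (vc M) (Matrix.trace N) = Matrix.trace (ev M N) := by
      intro N
      unfold Matrix.trace ev
      rw [map_sum]
      rfl
    rw [h3, map_mul, ev_const]
  have e1 : Matrix.trace (W.map C * Polynomial.aeval (Gn K n) p) =
      ∑ e ∈ range (p.natDegree + 1 + 3), p.coeff e • Matrix.trace (W.map C * Gn K n ^ e) := by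
    rw [Polynomial.aeval_eq_sum_range' (n := p.natDegree + 1 + 3) (by omega), mul_sum,
      Matrix.trace_sum]
    refine sum_congr rfl fun e _ => ?_
    rw [Matrix.mul_smul, Matrix.trace_smul]
  rw [e1]
  have h2 : ∀ a : Fin n × Fin n → K, ∀ f : ℕ → MvPolynomial (Fin n × Fin n) K,
      dd a (∑ e ∈ range (p.natDegree + 1 + 3), p.coeff e • f e) =
        ∑ e ∈ range (p.natDegree + 1 + 3), p.coeff e • dd a (f e) := by
    intro a f
    rw [map_sum]
    exact sum_congr rfl fun e _ => Derivation.map_smul _ _ _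
  rw [h2, h2, h2, map_sum]
  have h3 : ∀ e, eval (vc M) (p.coeff e • dd (vc A) (dd (vc B) (dd (vc C')
      (Matrix.trace (W.map C * Gn K n ^ e))))) = p.coeff e * Matrix.trace (W * D3 M A B C' e) := by
    intro e
    rw [smul_eval, key]
  rw [sum_congr rfl fun e _ => h3 e, sum_range_succ', sum_range_succ', sum_range_succ']
  have h4 : D3 M A B C' 0 = 0 := rfl
  have h5 : D3 M A B C' (0 + 1) = 0 := by
    rw [D3_rec h]
    simp [D2, D3]
  have h6 : D3 M A B C' (0 + 1 + 1) = 0 := D3_small h
  rw [h4, h5, h6]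
  simp only [mul_zero, Matrix.trace_zero, add_zero]
  refine sum_congr rfl fun e _ => ?_
  have e3 : e + 1 + 1 + 1 = e + 3 := by ring
  rw [e3, D3_eq h, mul_sum, Matrix.trace_sum]

end Run7.h432.ME
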