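import Mathlib

set_option autoImplicit false
set_option linter.unusedSectionVars false

/-!
# Points at which a matrix of values is invertible
-/

namespace Run7.h432.ME

open Finset Matrix

variable {K : Type*} [Field K]

/-- the polynomial in two variables with coefficients `p.coeff (s + t + 3)` -/
def gg (p : Polynomial K) (x y : K) : K :=
  ∑ e ∈ range (p.natDegree + 1), p.coeff (e + 3) * ∑ s ∈ range (e + 1), x ^ s * y ^ (e - s)

theorem gg_eq (p : Polynomial K) (x y : K) :
    gg p x y = ∑ t ∈ range (p.natDegree + 1),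
      (∑ s ∈ range (p.natDegree + 1), p.coeff (s + t + 3) * x ^ s) * y ^ t := by
  have h1 : gg p x y = ∑ e ∈ range (p.natDegree + 1), ∑ s ∈ range (e + 1),
      (fun a b => p.coeff (a + b + 3) * x ^ a * y ^ b) s (e - s) := by
    unfold gg
    refine sum_congr rfl fun e _ => ?_
    rw [mul_sum]
    refine sum_congr rfl fun s hs => ?_
    have : s + (e - s) = e := by
      have := mem_range.1 hs
      omega
    simp only [this]
    ring
  rw [h1, Finset.sum_range_diag_flip (p.natDegree + 1)
    (fun a b => p.coeff (a + b + 3) * x ^ a * y ^ b)]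
  simp only [sum_mul]
  rw [sum_comm]
  refine sum_congr rfl fun s _ => ?_
  refine sum_subset ?_ fun t _ ht => ?_
  · intro t ht
    rw [mem_range] at ht ⊢
    omega
  · rw [mem_range, not_lt] at ht
    rw [Polynomial.coeff_eq_zero_of_natDegree_lt (by omega), zero_mul, zero_mul]

/-- a family of functions which satisfies no linear relation has an invertible matrix of values -/
theorem exists_points {X : Type*} {r : ℕ} (f : Fin r → X → K)
    (h : ∀ α : Fin r → K, (∀ y, ∑ i, α i * f i y = 0) → α = 0) :
    ∃ y : Fin r → X, (Matrix.of fun l i => f i (y l)).det ≠ 0 := by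
  classical
  set s : Set (Fin r → K) := Set.range fun y => fun i => f i y with hs
  have htop : Submodule.span K s = ⊤ := by
    by_contra hne
    obtain ⟨φ, hφ, hker⟩ := Submodule.exists_le_ker_of_lt_top _ (lt_top_iff_ne_top.2 hne)
    apply hφ
    have h0 : (fun i => φ (Pi.single i 1)) = 0 := by
      apply h
      intro y
      have h1 : φ (fun i => f i y) = 0 :=
        hker (Submodule.subset_span ⟨y, rfl⟩)
      rw [LinearMap.pi_apply_eq_sum_univ] at h1
      rw [← h1]
      refine sum_congr rfl fun i _ => ?_
      rw [smul_eq_mul, mul_comm]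
      congr 2
      ext j
      rw [Pi.single_apply]
      exact if_congr eq_comm rfl rfl
    apply LinearMap.ext
    intro x
    rw [LinearMap.pi_apply_eq_sum_univ]
    refine (sum_eq_zero fun i _ => ?_)
    have h2 := congrFun h0 i
    simp only [Pi.zero_apply] at h2
    have h3 : (fun j => if i = j then (1 : K) else 0) = Pi.single i 1 := by
      ext j
      rw [Pi.single_apply]
      exact if_congr eq_comm rfl rfl
    rw [h3, h2, smul_zero]
  have hfin : Module.finrank K (Submodule.span K s) = r := by
    rw [htop, finrank_top, Module.finrank_fin_fun]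
  obtain ⟨g, hg1, -, hg3⟩ := Submodule.exists_fun_fin_finrank_span_eq K s
  choose y hy using hg1
  refine ⟨fun l => y (Fin.cast hfin.symm l), ?_⟩
  have h4 : LinearIndependent K
      (Matrix.of fun (l : Fin r) i => f i (y (Fin.cast hfin.symm l))).row := by
    have h5 : (Matrix.of fun (l : Fin r) i => f i (y (Fin.cast hfin.symm l))).row =
        g ∘ Fin.cast hfin.symm := by
      ext l i
      simp only [Matrix.row, Matrix.of_apply, Function.comp_apply]
      rw [← hy]
    rw [h5]
    exact hg3.comp _ (Fin.cast_injective _)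
  rw [Matrix.linearIndependent_rows_iff_isUnit, Matrix.isUnit_iff_isUnit_det] at h4
  exact h4.ne_zero

/-- the values of `gg p` at suitable points form an invertible matrix -/
theorem exists_gg [Infinite K] (p : Polynomial K) (r : ℕ) (hr : r + 2 ≤ p.natDegree) :
    ∃ l m : Fin r → K, (Matrix.of fun k i => gg p (l i) (m k)).det ≠ 0 := by
  classical
  obtain ⟨l⟩ : Nonempty (Fin r ↪ K) := ⟨(Fin.valEmbedding).trans (Infinite.natEmbedding K)⟩
  suffices h : ∀ α : Fin r → K, (∀ y, ∑ i, α i * gg p (l i) y = 0) → α = 0 by
    obtain ⟨m, hm⟩ := exists_points (fun i y => gg p (l i) y) h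
    exact ⟨l, m, hm⟩
  intro α hα
  set D := p.natDegree with hD
  have hp0 : p.coeff D ≠ 0 := by
    rw [hD, Polynomial.coeff_natDegree, Polynomial.leadingCoeff_ne_zero]
    intro h0
    rw [h0, Polynomial.natDegree_zero] at hD
    omega
  -- the polynomial in `y`
  set a : ℕ → K := fun t => ∑ s ∈ range (D + 1), p.coeff (s + t + 3) * ∑ i, α i * l i ^ s with ha
  have h1 : (∑ t ∈ range (D + 1), Polynomial.C (a t) * Polynomial.X ^ t) = 0 := by
    apply Polynomial.funext
    intro y
    rw [Polynomial.eval_zero, Polynomial.eval_finsetSum, ← hα y]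
    simp only [Polynomial.eval_mul, Polynomial.eval_C, Polynomial.eval_pow, Polynomial.eval_X,
      gg_eq, mul_sum]
    rw [sum_comm]
    refine sum_congr rfl fun t _ => ?_
    rw [ha]
    simp only [sum_mul, mul_sum]
    rw [sum_comm]
    exact sum_congr rfl fun s _ => sum_congr rfl fun i _ => by ring
  have h2 : ∀ t ≤ D, a t = 0 := by
    intro t ht
    have h3 := congrArg (fun q => Polynomial.coeff q t) h1
    simp only [Polynomial.finsetSum_coeff, Polynomial.coeff_C_mul, Polynomial.coeff_X_pow,
      Polynomial.coeff_zero, mul_ite, mul_one, mul_zero] at h3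
    rw [Finset.sum_ite_eq, if_pos (mem_range.2 (by omega))] at h3
    exact h3
  have h4 : ∀ j, j + 3 ≤ D → ∑ i, α i * l i ^ j = 0 := by
    intro j
    induction j using Nat.strong_induction_on with
    | _ j ih =>
      intro hj
      have h5 := h2 (D - 3 - j) (by omega)
      rw [ha] at h5
      simp only at h5
      rw [Finset.sum_eq_single j] at h5
      · have e : j + (D - 3 - j) + 3 = D := by omega
        rw [e] at h5
        exact (mul_eq_zero.1 h5).resolve_left hp0
      · intro s _ hs
        rcases lt_or_gt_of_ne hs with h6 | h6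
        · rw [ih s h6 (by omega), mul_zero]
        · rw [Polynomial.coeff_eq_zero_of_natDegree_lt (by omega), zero_mul]
      · intro hcon
        exact absurd (mem_range.2 (by omega)) hcon
  exact Matrix.eq_zero_of_forall_pow_sum_mul_pow_eq_zero l.injective fun i => h4 i (by
    have := i.2
    omega)

/-- a perturbation argument: the entrywise product with `w0 + σ w1 + σ ^ 2 c` -/
theorem exists_sigma [Infinite K] {r : ℕ} (G w0 w1 : Matrix (Fin r) (Fin r) K) (hG : G.det ≠ 0)
    {c : K} (hc : c ≠ 0) :
    ∃ σ : K, (Matrix.of fun i j => G i j * (w0 i j + σ * w1 i j + σ ^ 2 * c)).det ≠ 0 := by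
  let H : Matrix (Fin r) (Fin r) (Polynomial K) := Matrix.of fun i j => Polynomial.C (G i j) *
    (Polynomial.C c + Polynomial.X * Polynomial.C (w1 i j) + Polynomial.X ^ 2 *
      Polynomial.C (w0 i j))
  have he : ∀ τ : K, H.det.eval τ = (Matrix.of fun i j => G i j *
      (c + τ * w1 i j + τ ^ 2 * w0 i j)).det := by
    intro τ
    have h1 := (RingHom.map_det (Polynomial.evalRingHom τ) H)
    rw [Polynomial.coe_evalRingHom] at h1
    rw [h1]
    congr 1
    ext i j
    simp only [H, RingHom.mapMatrix_apply, Matrix.map_apply, Matrix.of_apply,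
      Polynomial.coe_evalRingHom, Polynomial.eval_C, Polynomial.eval_X, Polynomial.eval_mul,
      Polynomial.eval_add, Polynomial.eval_pow]
  have h0 : H.det.eval 0 ≠ 0 := by
    rw [he]
    have h1 : (Matrix.of fun i j => G i j * (c + 0 * w1 i j + 0 ^ 2 * w0 i j)) = c • G := by
      ext i j
      simp [mul_comm]
    rw [h1, Matrix.det_smul]
    exact mul_ne_zero (pow_ne_zero _ hc) hG
  have hH : H.det ≠ 0 := by
    intro h
    rw [h, Polynomial.eval_zero] at h0
    exact h0 rfl
  have hX : Polynomial.X * H.det ≠ 0 := mul_ne_zero Polynomial.X_ne_zero hH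
  obtain ⟨τ, hτ⟩ : ∃ τ : K, (Polynomial.X * H.det).eval τ ≠ 0 := by
    by_contra hcon
    push Not at hcon
    exact hX (Polynomial.funext fun x => by rw [hcon, Polynomial.eval_zero])
  rw [Polynomial.eval_mul, Polynomial.eval_X, he] at hτ
  have hτ0 : τ ≠ 0 := left_ne_zero_of_mul hτ
  refine ⟨τ⁻¹, ?_⟩
  have h2 : (Matrix.of fun i j => G i j * (w0 i j + τ⁻¹ * w1 i j + τ⁻¹ ^ 2 * c)) =
      (τ⁻¹ ^ 2) • (Matrix.of fun i j => G i j * (c + τ * w1 i j + τ ^ 2 * w0 i j)) := by
    ext i j
    simp only [Matrix.of_apply, Matrix.smul_apply, smul_eq_mul]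
    field_simp
    ring
  rw [h2, Matrix.det_smul]
  exact mul_ne_zero (pow_ne_zero _ (pow_ne_zero _ (inv_ne_zero hτ0))) (right_ne_zero_of_mul hτ)

/-- a matrix which is not scalar has a conjugate with a nonzero entry off the diagonal -/
theorem exists_conj {n : ℕ} (W : Matrix (Fin n) (Fin n) K) (hW : ∀ c : K, W ≠ Matrix.scalar _ c) :
    ∃ (S S' : Matrix (Fin n) (Fin n) K) (a b : Fin n), S' * S = 1 ∧ a ≠ b ∧
      (S' * W * S) b a ≠ 0 := by
  classical
  by_cases hoff : ∃ a b : Fin n, a ≠ b ∧ W b a ≠ 0
  · obtain ⟨a, b, hab, h⟩ := hoff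
    exact ⟨1, 1, a, b, one_mul 1, hab, by rwa [Matrix.one_mul, Matrix.mul_one]⟩
  · push Not at hoff
    have hdiag : ∃ a b : Fin n, a ≠ b ∧ W b b ≠ W a a := by
      by_contra hcon
      push Not at hcon
      rcases Nat.eq_zero_or_pos n with hn | hn
      · subst hn
        exact hW 0 (Matrix.ext fun i => i.elim0)
      · refine hW (W ⟨0, hn⟩ ⟨0, hn⟩) ?_
        ext i j
        rw [Matrix.scalar_apply]
        by_cases hij : i = j
        · subst hij
          rw [Matrix.diagonal_apply_eq]
          by_cases h0 : (⟨0, hn⟩ : Fin n) = i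
          · rw [h0]
          · exact hcon _ _ h0
        · rw [Matrix.diagonal_apply_ne _ hij]
          exact hoff j i (Ne.symm hij)
    obtain ⟨a, b, hab, h⟩ := hdiag
    refine ⟨1 + Matrix.single b a 1, 1 - Matrix.single b a 1, a, b, ?_, hab, ?_⟩
    · have h1 : Matrix.single b a (1 : K) * Matrix.single b a 1 = 0 :=
        Matrix.single_mul_single_of_ne _ _ _ _ hab _
      have h2 : (1 - Matrix.single b a (1 : K)) * (1 + Matrix.single b a 1) =
          1 - Matrix.single b a (1 : K) * Matrix.single b a 1 := by
        noncomm_ring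
      rw [h2, h1, sub_zero]
    · have h3 : (1 - Matrix.single b a (1 : K)) * W * (1 + Matrix.single b a 1) =
          W + W * Matrix.single b a 1 - Matrix.single b a 1 * W -
            Matrix.single b a 1 * W * Matrix.single b a 1 := by
        noncomm_ring
      rw [h3]
      have h4 : (W * Matrix.single b a (1 : K)) b a = W b b := by
        rw [Matrix.mul_single_apply_same, mul_one]
      have h5 : (Matrix.single b a (1 : K) * W) b a = W a a := by
        rw [Matrix.single_mul_apply_same, one_mul]
      have h6 : (Matrix.single b a (1 : K) * W * Matrix.single b a (1 : K)) b a = W a b := by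
        rw [Matrix.mul_single_apply_same, mul_one, Matrix.single_mul_apply_same, one_mul]
      rw [Matrix.sub_apply, Matrix.sub_apply, Matrix.add_apply, h4, h5, h6, hoff a b hab,
        hoff b a hab.symm]
      simpa [sub_ne_zero] using h

end Run7.h432.ME
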