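import Pool.Agent.Run7.h432.ME.Size

set_option autoImplicit false
set_option linter.unusedSectionVars false

/-!
# Growth of the least size for one entry
-/

namespace Run7.h432.ME

open Finset MvPolynomial Matrix Filter Run7.h128.SI Pool.Agent.H522R2 Pool.Agent.H522R2.Circuit
  Pool.Agent.W956.KF Pool.Agent.H826R3.SM

variable {K : Type} [Field K]

theorem rpow_half_sq {m : ℕ} (α : ℝ) : ((m : ℝ) ^ 2) ^ α = (m : ℝ) ^ (2 * α) := by
  rw [← Real.rpow_natCast (m : ℝ) 2, ← Real.rpow_mul (Nat.cast_nonneg _)]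
  norm_num

theorem not_superlinear {f : ℕ → ℕ}
    (hup : ∀ τ, omegaMM K < τ → ∃ D : ℝ, ∀ m : ℕ, (f m : ℝ) ≤ D * (m : ℝ) ^ τ)
    (h : Superlinear f) : 2 < omegaMM K := by
  obtain ⟨α, hα, a, ha, h⟩ := h
  by_contra hcon
  push Not at hcon
  obtain ⟨D, hD⟩ := hup (1 + α) (by linarith)
  have hlim : Tendsto (fun q : ℕ => (q : ℝ) ^ (2 * α - (1 + α))) atTop atTop :=
    (tendsto_rpow_atTop (by linarith)).comp tendsto_natCast_atTop_atTop
  obtain ⟨m, hm1, hm2⟩ := ((hlim.eventually_gt_atTop (D / a)).and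
    (eventually_ge_atTop 1)).exists
  have hm0 : (0 : ℝ) < m := by exact_mod_cast hm2
  have h1 := (h m).trans (hD m)
  have e1 : ((m : ℝ) ^ 2) ^ α = (m : ℝ) ^ (2 * α - (1 + α)) * (m : ℝ) ^ (1 + α) := by
    rw [← Real.rpow_add hm0, rpow_half_sq]
    congr 1
    ring
  rw [e1] at h1
  have h2 : 0 < (m : ℝ) ^ (1 + α) := Real.rpow_pos_of_pos hm0 _
  have h3 : D < a * (m : ℝ) ^ (2 * α - (1 + α)) := by
    rw [div_lt_iff₀ ha] at hm1
    linarith
  have h4 := mul_lt_mul_of_pos_right h3 h2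
  linarith [mul_assoc a ((m : ℝ) ^ (2 * α - (1 + α))) ((m : ℝ) ^ (1 + α))]

theorem trank_zero'' (K : Type) [Field K] : trank K 0 0 0 = 0 := by
  have h0 : RankLE K 0 0 0 0 := ⟨fun l => l.elim0, fun l => l.elim0, fun l => l.elim0,
    fun i => i.elim0⟩
  exact Nat.le_zero.1 (Nat.sInf_le h0)

theorem growth_eq_omega {f : ℕ → ℕ} {a b : ℕ}
    (hf : ∀ m q, 1 ≤ q → b * q ≤ m → trank K q q q ≤ a * f m)
    (hup : ∀ τ, omegaMM K < τ → ∃ D : ℝ, ∀ m : ℕ, (f m : ℝ) ≤ D * (m : ℝ) ^ τ) :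
    growth f = omegaMM K := by
  have hf' : ∀ q, trank K q q q ≤ a * (fun q => f (b * q)) q := by
    intro q
    rcases Nat.eq_zero_or_pos q with hq | hq
    · subst hq
      rw [trank_zero'']
      exact Nat.zero_le _
    · exact hf _ q hq le_rfl
  have hlow : ∀ τ ∈ {τ : ℝ | ∃ D : ℝ, ∀ m : ℕ, (f m : ℝ) ≤ D * (m : ℝ) ^ τ},
      omegaMM K ≤ τ := by
    rintro τ ⟨D, hD⟩
    refine omega_le_of_infinite hf' (τ := τ) (D := D * (b : ℝ) ^ τ) ?_
    have : {m : ℕ | ((fun q => f (b * q)) m : ℝ) ≤ D * (b : ℝ) ^ τ * (m : ℝ) ^ τ} = Set.univ := by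
      apply Set.eq_univ_of_forall
      intro q
      have h1 := hD (b * q)
      show (f (b * q) : ℝ) ≤ D * (b : ℝ) ^ τ * (q : ℝ) ^ τ
      rw [mul_assoc, ← Real.mul_rpow (Nat.cast_nonneg _) (Nat.cast_nonneg _)]
      exact_mod_cast h1
    rw [this]
    exact Set.infinite_univ
  apply le_antisymm
  · refine le_of_forall_pos_le_add fun ε hε => ?_
    exact csInf_le ⟨omegaMM K, hlow⟩ (hup _ (by linarith))
  · refine le_csInf ?_ hlow
    exact ⟨_, hup _ (lt_add_one _)⟩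

/-- the lower bound for all `m` -/
theorem lower_all {f : ℕ → ℕ} {a b : ℕ} (ha : 1 ≤ a) (hb : 1 ≤ b)
    (hf : ∀ m q, 1 ≤ q → b * q ≤ m → trank K q q q ≤ a * f m)
    (hpos : ∀ m, 1 ≤ m → 1 ≤ f m) (hw : 0 < omegaMM K) :
    ∃ c : ℝ, 0 < c ∧ ∀ m : ℕ, c * (m : ℝ) ^ omegaMM K ≤ f m := by
  set w := omegaMM K with hw'
  have ha' : (1 : ℝ) ≤ a := by exact_mod_cast ha
  have hb' : (1 : ℝ) ≤ b := by exact_mod_cast hb
  have hB : (0 : ℝ) < (2 * (b : ℝ)) ^ w := by positivity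
  have hA : (0 : ℝ) < a * (2 * (b : ℝ)) ^ w := by positivity
  refine ⟨1 / (a * (2 * (b : ℝ)) ^ w), by positivity, fun m => ?_⟩
  rcases Nat.eq_zero_or_pos m with hm | hm
  · subst hm
    rw [Nat.cast_zero, Real.zero_rpow hw.ne', mul_zero]
    exact Nat.cast_nonneg _
  · have hs : (1 : ℝ) ≤ f m := by exact_mod_cast hpos m hm
    rw [div_mul_eq_mul_div, one_mul, div_le_iff₀ hA]
    rcases Nat.lt_or_ge m b with h6 | h6
    · have h1 : (m : ℝ) ^ w ≤ (2 * (b : ℝ)) ^ w := by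
        apply Real.rpow_le_rpow (Nat.cast_nonneg _) _ hw.le
        have : (m : ℝ) ≤ b := by exact_mod_cast h6.le
        linarith
      calc (m : ℝ) ^ w ≤ 1 * (1 * (2 * (b : ℝ)) ^ w) := by rw [one_mul, one_mul]; exact h1
        _ ≤ f m * (a * (2 * (b : ℝ)) ^ w) := by gcongr
    · set q := m / b with hq
      have hq1 : 1 ≤ q := (Nat.one_le_div_iff hb).2 h6
      have hqm : b * q ≤ m := Nat.mul_div_le m b
      have h1 : m ≤ 2 * b * q := by
        have := Nat.lt_mul_div_succ m (show 0 < b by omega)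
        rw [← hq] at this
        nlinarith
      have h4 := rpow_omega_le K q hq1
      have h5 : (trank K q q q : ℝ) ≤ a * f m := by exact_mod_cast hf m q hq1 hqm
      have h6' : (m : ℝ) ^ w ≤ (2 * (b : ℝ) * q) ^ w := by
        apply Real.rpow_le_rpow (Nat.cast_nonneg _) _ hw.le
        exact_mod_cast h1
      rw [Real.mul_rpow (by positivity) (Nat.cast_nonneg _)] at h6'
      calc (m : ℝ) ^ w ≤ (2 * (b : ℝ)) ^ w * (q : ℝ) ^ w := h6'
        _ ≤ (2 * (b : ℝ)) ^ w * (a * f m) :=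
            mul_le_mul_of_nonneg_left (h4.trans h5) hB.le
        _ = f m * (a * (2 * (b : ℝ)) ^ w) := by ring

theorem superlinear_iff_omega {f : ℕ → ℕ} {a b : ℕ} (ha : 1 ≤ a) (hb : 1 ≤ b)
    (hf : ∀ m q, 1 ≤ q → b * q ≤ m → trank K q q q ≤ a * f m)
    (hpos : ∀ m, 1 ≤ m → 1 ≤ f m)
    (hup : ∀ τ, omegaMM K < τ → ∃ D : ℝ, ∀ m : ℕ, (f m : ℝ) ≤ D * (m : ℝ) ^ τ) :
    Superlinear f ↔ 2 < omegaMM K := by
  refine ⟨not_superlinear hup, fun h => ?_⟩
  obtain ⟨c, hc, h1⟩ := lower_all ha hb hf hpos (by linarith)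
  refine ⟨omegaMM K / 2, by linarith, c, hc, fun m => ?_⟩
  have := h1 m
  rw [rpow_half_sq]
  have e : 2 * (omegaMM K / 2) = omegaMM K := by ring
  rwa [e]

/-! ### The upper bound -/

theorem natLog_le {ε : ℝ} (hε : 0 < ε) : ∃ D : ℝ, 0 ≤ D ∧ ∀ m : ℕ, 1 ≤ m →
    (Nat.log 2 m : ℝ) ≤ D * (m : ℝ) ^ ε := by
  refine ⟨1 / (ε * Real.log 2), by positivity, fun m hm => ?_⟩
  have h1 : (Nat.log 2 m : ℝ) ≤ Real.logb 2 m := by
    have := Real.natLog_le_logb m 2
    exact_mod_cast this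
  have h2 : Real.log m ≤ (m : ℝ) ^ ε / ε := Real.log_le_rpow_div (Nat.cast_nonneg _) hε
  have hlog : 0 < Real.log 2 := Real.log_pos (by norm_num)
  refine h1.trans ?_
  unfold Real.logb
  rw [div_le_iff₀ hlog]
  refine h2.trans (le_of_eq ?_)
  field_simp

theorem sq_le_rpow (K : Type) [Field K] {τ : ℝ} (hτ : omegaMM K < τ) :
    ∃ D : ℝ, 0 ≤ D ∧ ∀ m : ℕ, 1 ≤ m → (m : ℝ) ^ 2 ≤ D * (m : ℝ) ^ τ := by
  obtain ⟨τ', ⟨D, hD⟩, hττ⟩ := exists_lt_of_csInf_lt (omega_set_nonempty (F := K)) hτ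
  refine ⟨|D|, abs_nonneg _, fun m hm => ?_⟩
  have h1 : ((m ^ 2 : ℕ) : ℝ) ≤ rk K m := by
    exact_mod_cast (trank_eq_rk K m) ▸ sq_le_trank K m
  push_cast at h1
  have hm1 : (1 : ℝ) ≤ m := by exact_mod_cast hm
  calc (m : ℝ) ^ 2 ≤ rk K m := h1
    _ ≤ D * (m : ℝ) ^ τ' := hD m
    _ ≤ |D| * (m : ℝ) ^ τ' := mul_le_mul_of_nonneg_right (le_abs_self _) (by positivity)
    _ ≤ |D| * (m : ℝ) ^ τ := by
        apply mul_le_mul_of_nonneg_left _ (abs_nonneg _)
        exact Real.rpow_le_rpow_of_exponent_le hm1 hττ.le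

theorem entry_upper {p : ℕ → Polynomial K} {c : ℕ} (hp : ∀ m, 1 ≤ m → (p m).natDegree ≤ c * m)
    (τ : ℝ) (hτ : omegaMM K < τ) :
    ∃ D : ℝ, ∀ m : ℕ, (entrySize K m (p m) : ℝ) ≤ D * (m : ℝ) ^ τ := by
  set ε := (τ - omegaMM K) / 2 with hε
  have hε0 : 0 < ε := by
    rw [hε]
    linarith
  obtain ⟨D1, hD1⟩ := sizeMM_upper (K := K) (τ := omegaMM K + ε) (by linarith)
  obtain ⟨D2, hD2, h2⟩ := natLog_le hε0
  obtain ⟨D3, hD3, h3⟩ := sq_le_rpow K hτ
  have hw := omega_nonneg (F := K)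
  refine ⟨(4 * D2 + c + 2) * |D1| + 4 * (c + 1) * D3, fun m => ?_⟩
  rcases Nat.eq_zero_or_pos m with hm | hm
  · subst hm
    have h : entrySize K 0 (p 0) = 0 := by
      have : {s | ∃ (C : Circuit K (Fin 0 × Fin 0)) (v : Fin C.nodes) (i j : Fin 0),
          C.poly v = Polynomial.aeval (Matrix.mvPolynomialX (Fin 0) (Fin 0) K) (p 0) i j ∧
            C.size = s} = ∅ := by
        apply Set.eq_empty_of_forall_notMem
        rintro s ⟨_, _, i, _⟩
        exact i.elim0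
      unfold entrySize
      rw [this, Nat.sInf_empty]
    rw [h, Nat.cast_zero, Real.zero_rpow (by linarith), mul_zero]
  · have h1 : (entrySize K m (p m) : ℝ) ≤
        (4 * Nat.log 2 m + c + 2) * sizeMM K m + 4 * (c + 1) * m ^ 2 := by
      exact_mod_cast entrySize_le hm c (p m) (hp m hm)
    have hm1 : (1 : ℝ) ≤ m := by exact_mod_cast hm
    have hm0 : (0 : ℝ) < m := by linarith
    have h4 : (1 : ℝ) ≤ (m : ℝ) ^ ε := Real.one_le_rpow hm1 hε0.le
    have h5 : (sizeMM K m : ℝ) ≤ |D1| * (m : ℝ) ^ (omegaMM K + ε) :=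
      (hD1 m).trans (mul_le_mul_of_nonneg_right (le_abs_self _) (by positivity))
    have h6 : (4 * (Nat.log 2 m : ℝ) + c + 2) ≤ (4 * D2 + c + 2) * (m : ℝ) ^ ε := by
      have := h2 m hm
      have h7 : (c + 2 : ℝ) * 1 ≤ (c + 2 : ℝ) * (m : ℝ) ^ ε :=
        mul_le_mul_of_nonneg_left h4 (by positivity)
      linarith [mul_assoc (4 : ℝ) D2 ((m : ℝ) ^ ε), add_mul (4 * D2) (c + 2 : ℝ) ((m : ℝ) ^ ε)]
    have h8 : (m : ℝ) ^ ε * (m : ℝ) ^ (omegaMM K + ε) = (m : ℝ) ^ τ := by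
      rw [← Real.rpow_add hm0]
      congr 1
      rw [hε]
      ring
    calc (entrySize K m (p m) : ℝ) ≤
        (4 * Nat.log 2 m + c + 2) * sizeMM K m + 4 * (c + 1) * m ^ 2 := h1
      _ ≤ ((4 * D2 + c + 2) * (m : ℝ) ^ ε) * (|D1| * (m : ℝ) ^ (omegaMM K + ε)) +
          4 * (c + 1) * (D3 * (m : ℝ) ^ τ) := by
          apply add_le_add
          · exact mul_le_mul h6 h5 (Nat.cast_nonneg _) (by positivity)
          · exact mul_le_mul_of_nonneg_left (h3 m hm) (by positivity)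
      _ = (4 * D2 + c + 2) * |D1| * ((m : ℝ) ^ ε * (m : ℝ) ^ (omegaMM K + ε)) +
          4 * (c + 1) * D3 * (m : ℝ) ^ τ := by ring
      _ = ((4 * D2 + c + 2) * |D1| + 4 * (c + 1) * D3) * (m : ℝ) ^ τ := by
          rw [h8]
          ring

/-- the sequences of polynomials: linear degrees -/
structure LinDeg (c : ℕ) (p : ℕ → Polynomial K) : Prop where
  two : ∀ m, 1 ≤ m → 2 ≤ (p m).natDegree
  low : ∀ m, m ≤ c * (p m).natDegree
  up : ∀ m, 1 ≤ m → (p m).natDegree ≤ c * m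

section

variable [Infinite K] {p : ℕ → Polynomial K} {c : ℕ} (h : LinDeg c p)
include h

theorem LinDeg.one_le : 1 ≤ c := by
  have h1 := h.low 1
  by_contra hcon
  have : c = 0 := by omega
  subst this
  omega

theorem entry_lower (m q : ℕ) (hq : 1 ≤ q) (hm : 4 * c * q ≤ m) :
    trank K q q q ≤ 6 * entrySize K m (p m) := by
  have hc := h.one_le
  have h1 : 4 * q ≤ 4 * c * q := by nlinarith
  have h2 : 4 * q ≤ (p m).natDegree := by
    have h3 := h.low m
    by_contra hcon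
    push Not at hcon
    have h4 : c * (p m).natDegree < c * (4 * q) := Nat.mul_lt_mul_of_pos_left hcon (by omega)
    have h5 : c * (4 * q) = 4 * c * q := by ring
    omega
  exact trank_le_entrySize (by omega) (by omega) (p m) (by omega)

theorem entry_growth : growth (fun m => entrySize K m (p m)) = omega K := by
  have hc := h.one_le
  rw [omega_eq]
  exact growth_eq_omega (a := 6) (b := 4 * c) (entry_lower h) (entry_upper h.up)

theorem entry_superlinear :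
    Superlinear (fun m => entrySize K m (p m)) ↔ 2 < omegaMM K := by
  have hc := h.one_le
  exact superlinear_iff_omega (a := 6) (b := 4 * c) (by omega) (by omega) (entry_lower h)
    (fun m hm => entrySize_pos hm (p m) (h.two m hm)) (entry_upper h.up)

end

theorem linDeg_powers (K : Type) [Field K] :
    LinDeg (K := K) 2 (fun m => Polynomial.X ^ (m + 1)) where
  two m hm := by
    rw [Polynomial.natDegree_X_pow]
    omega
  low m := by
    rw [Polynomial.natDegree_X_pow]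
    omega
  up m hm := by
    rw [Polynomial.natDegree_X_pow]
    omega

/-- superlinear bounds for matrix multiplication over an infinite field -/
theorem superlinear_sizeMM (K : Type) [Field K] [Infinite K] :
    Superlinear (sizeMM K) ↔ 2 < omegaMM K := by
  refine ⟨not_superlinear fun τ hτ => sizeMM_upper hτ, fun hw => ?_⟩
  set w := omegaMM K with hw'
  have hL := linDeg_powers K
  obtain ⟨c, hc, h1⟩ := lower_all (f := fun m => entrySize K m (Polynomial.X ^ (m + 1)))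
    (a := 6) (b := 4 * 2) (by omega) (by omega) (entry_lower hL)
    (fun m hm => entrySize_pos hm _ (hL.two m hm)) (by linarith)
  set ε := (w - 2) / 2 with hε
  have hε0 : 0 < ε := by
    rw [hε]
    linarith
  obtain ⟨D2, hD2, h2⟩ := natLog_le hε0
  -- large `m`
  have hlim : Tendsto (fun q : ℕ => (q : ℝ) ^ (w - 2)) atTop atTop :=
    (tendsto_rpow_atTop (by linarith)).comp tendsto_natCast_atTop_atTop
  obtain ⟨m0, hm0⟩ := (hlim.eventually_gt_atTop (24 / c)).exists_forall_of_atTop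
  have hα : 1 < (w + 2) / 4 := by linarith
  set M : ℝ := (m0 : ℝ) + 1 with hM
  have hMpos : 0 < M := by positivity
  refine ⟨(w + 2) / 4, hα, min (c / (2 * (4 * D2 + 4))) (1 / M ^ (2 * ((w + 2) / 4))),
    by positivity, fun m => ?_⟩
  rw [rpow_half_sq]
  rcases Nat.eq_zero_or_pos m with hm | hm
  · subst hm
    rw [Nat.cast_zero, Real.zero_rpow (by linarith), mul_zero]
    exact Nat.cast_nonneg _
  have hm1 : (1 : ℝ) ≤ m := by exact_mod_cast hm
  have hmp : (0 : ℝ) < m := by linarith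
  have hpow0 : (0 : ℝ) ≤ (m : ℝ) ^ (2 * ((w + 2) / 4)) := by positivity
  have hS : (1 : ℝ) ≤ sizeMM K m := by exact_mod_cast sizeMM_pos hm
  rcases Nat.lt_or_ge m m0 with hlt | hge
  · refine (mul_le_mul_of_nonneg_right (min_le_right _ _) hpow0).trans ?_
    rw [div_mul_eq_mul_div, one_mul, div_le_iff₀ (by positivity)]
    have h3 : (m : ℝ) ^ (2 * ((w + 2) / 4)) ≤ M ^ (2 * ((w + 2) / 4)) := by
      apply Real.rpow_le_rpow hmp.le _ (by linarith)
      have : (m : ℝ) ≤ m0 := by exact_mod_cast hlt.le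
      rw [hM]
      linarith
    have h4 : 0 < M ^ (2 * ((w + 2) / 4)) := by positivity
    nlinarith
  · refine (mul_le_mul_of_nonneg_right (min_le_left _ _) hpow0).trans ?_
    have h3 := h1 m
    have h4 : (entrySize K m (Polynomial.X ^ (m + 1)) : ℝ) ≤
        (4 * Nat.log 2 m + 2 + 2) * sizeMM K m + 4 * (2 + 1) * m ^ 2 := by
      exact_mod_cast entrySize_le hm 2 _ (hL.up m hm)
    have h5 := hm0 m hge
    have e1 : (m : ℝ) ^ w = (m : ℝ) ^ (w - 2) * (m : ℝ) ^ 2 := by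
      rw [← Real.rpow_natCast (m : ℝ) 2, ← Real.rpow_add hmp]
      congr 1
      push_cast
      ring
    have h6 : 12 * (m : ℝ) ^ 2 ≤ c / 2 * (m : ℝ) ^ w := by
      rw [e1]
      have h7 : 24 ≤ c * (m : ℝ) ^ (w - 2) := by
        rw [div_lt_iff₀ hc] at h5
        linarith
      have h8 : (0 : ℝ) ≤ (m : ℝ) ^ 2 := by positivity
      nlinarith
    have h9 : c / 2 * (m : ℝ) ^ w ≤ (4 * Nat.log 2 m + 4) * sizeMM K m := by
      linarith
    have h10 : (4 * (Nat.log 2 m : ℝ) + 4) ≤ (4 * D2 + 4) * (m : ℝ) ^ ε := by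
      have := h2 m hm
      have h11 : (1 : ℝ) ≤ (m : ℝ) ^ ε := Real.one_le_rpow hm1 hε0.le
      nlinarith
    have h12 : c / 2 * (m : ℝ) ^ w ≤ ((4 * D2 + 4) * (m : ℝ) ^ ε) * sizeMM K m :=
      h9.trans (mul_le_mul_of_nonneg_right h10 (by linarith))
    have e2 : (m : ℝ) ^ w = (m : ℝ) ^ ε * (m : ℝ) ^ (2 * ((w + 2) / 4)) := by
      rw [← Real.rpow_add hmp]
      congr 1
      rw [hε]
      ring
    rw [e2] at h12
    have h13 : (0 : ℝ) < (m : ℝ) ^ ε := by positivity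
    have h14 : c / 2 * (m : ℝ) ^ (2 * ((w + 2) / 4)) ≤ (4 * D2 + 4) * sizeMM K m := by
      by_contra hcon
      push Not at hcon
      have := mul_lt_mul_of_pos_left hcon h13
      linarith [mul_assoc ((4 * D2 + 4 : ℝ)) ((m : ℝ) ^ ε) (sizeMM K m : ℝ),
        mul_left_comm ((m : ℝ) ^ ε) (4 * D2 + 4 : ℝ) (sizeMM K m : ℝ),
        mul_left_comm ((m : ℝ) ^ ε) (c / 2) ((m : ℝ) ^ (2 * ((w + 2) / 4)))]
    have h15 : (0 : ℝ) < 4 * D2 + 4 := by positivity
    rw [div_mul_eq_mul_div, div_le_iff₀ (by positivity)]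
    linarith

end Run7.h432.ME
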