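import Pool.Agent.Run7.h432.ME.Rank

set_option autoImplicit false
set_option linter.unusedSectionVars false

/-!
# The lower bound for one linear combination of the entries of `p(X)`
-/

namespace Run7.h432.ME

open Finset MvPolynomial Matrix Run7.h128.SI Pool.Agent.H522R2 Pool.Agent.H522R2.Circuit
  Pool.Agent.W956.KF

variable {K : Type*} [Field K] {n r q : ℕ}

/-- the third derivatives in the directions given by three families -/
theorem exists_terms (C : Circuit K (Fin n × Fin n)) (v : Fin C.nodes) (x₀ : Fin n × Fin n → K)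
    (A : Fin r → Fin q → Fin n × Fin n → K) (B : Fin q → Fin q → Fin n × Fin n → K)
    (D : Fin r → Fin q → Fin n × Fin n → K) :
    ∃ (U : {h // h ∈ NS C} × Fin 6 → Fin r → Fin q → K)
      (V : {h // h ∈ NS C} × Fin 6 → Fin q → Fin q → K)
      (W : {h // h ∈ NS C} × Fin 6 → Fin r → Fin q → K), ∀ i i' j j' k k',
      eval x₀ (dd (A i j) (dd (B j' k) (dd (D i' k') (C.poly v)))) =
        ∑ t, U t i j * V t j' k * W t i' k' := by
  obtain ⟨P, Q, R, h⟩ := third_rank C x₀ v
  refine ⟨fun t i j => (![R t.1, R t.1, P t.1, Q t.1, P t.1, Q t.1] t.2) (A i j),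
    fun t j k => (![P t.1, Q t.1, R t.1, R t.1, Q t.1, P t.1] t.2) (B j k),
    fun t i k => (![Q t.1, P t.1, Q t.1, P t.1, R t.1, R t.1] t.2) (D i k),
    fun i i' j j' k k' => ?_⟩
  rw [h, Fintype.sum_prod_type, ← Finset.sum_coe_sort (NS C)]
  refine Fintype.sum_congr _ _ fun g => ?_
  rw [Fin.sum_univ_six]
  simp only [Fin.isValue, Matrix.cons_val_zero, Matrix.cons_val_one, Matrix.cons_val]
  ring

/-- the rank bound from an invertible matrix of values -/
theorem rank_of_det {e : Ix r q → Fin n} (he : Function.Injective e)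
    {P P' : Matrix (Fin n) (Fin n) K} (h : P' * P = 1) (p : Polynomial K)
    (W : Matrix (Fin n) (Fin n) K) (l m : Fin r → K)
    (hdet : (Matrix.of fun k i => gg p (l i) (m k) * (P' * W * P) (eL e k) (eK e i)).det ≠ 0)
    (C : Circuit K (Fin n × Fin n)) (v : Fin C.nodes)
    (hv : C.poly v = Matrix.trace (W.map MvPolynomial.C * Polynomial.aeval (Gn K n) p)) :
    RankLE K r q q (6 * C.nonscalarCount) := by
  classical
  set Ω : Matrix (Fin r) (Fin r) K :=
    Matrix.of fun k i => gg p (l i) (m k) * (P' * W * P) (eL e k) (eK e i) with hΩ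
  have hinv : Ω⁻¹ * Ω = 1 := Matrix.nonsing_inv_mul _ (isUnit_iff_ne_zero.2 hdet)
  obtain ⟨U, V, T, h1⟩ := Run7.h432.ME.exists_terms C v (vc (P * diagonal (dg e l m) * P'))
    (fun i j => vc (P * dA e i j * P')) (fun j k => vc (P * dB e j k * P'))
    (fun i k => vc (P * dC e (fun x => Ω⁻¹ i x) k * P'))
  have h2 := Run7.h128.SI.rankLE_of_fintype (K := K) (fun t => Matrix.of (U t)) (fun t => Matrix.of (V t))
    (fun t => Matrix.of (T t)) ?_
  · refine h2.mono ?_
    rw [Fintype.card_prod, Fintype.card_coe, card_NS, Fintype.card_fin]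
    omega
  · intro i i' j j' k k'
    simp only [Matrix.of_apply]
    rw [← h1, hv, third_value he h]
    have h3 : ∑ x, Ω⁻¹ i' x * (gg p (l i) (m x) * (P' * W * P) (eL e x) (eK e i)) =
        if i = i' then 1 else 0 := by
      have h4 := congrFun (congrFun hinv i') i
      rw [Matrix.mul_apply, Matrix.one_apply] at h4
      rw [← if_congr (eq_comm (a := i') (b := i)) rfl rfl, ← h4]
      rfl
    rw [h3]
    by_cases hi : i = i' <;> by_cases hj : j = j' <;> by_cases hk : k = k' <;>
      simp [hi, hj, hk]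

section Q

variable (e : Ix r q → Fin n) (a b : Fin n)

open Classical in
/-- indicator of the first family -/
noncomputable def chK : Fin n → K := fun x => if ∃ i, eK e i = x then 1 else 0

open Classical in
/-- indicator of the second family -/
noncomputable def chL : Fin n → K := fun x => if ∃ i, eL e i = x then 1 else 0

theorem chK_eK (i : Fin r) : chK (K := K) e (eK e i) = 1 := if_pos ⟨i, rfl⟩

theorem chL_eL (i : Fin r) : chL (K := K) e (eL e i) = 1 := if_pos ⟨i, rfl⟩

/-- first nilpotent matrix -/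
noncomputable def N1 : Matrix (Fin n) (Fin n) K := vecMulVec (Pi.single a 1) (chK e)

/-- second nilpotent matrix -/
noncomputable def N2 : Matrix (Fin n) (Fin n) K := vecMulVec (chL e) (Pi.single b 1)

/-- the change of basis -/
noncomputable def QQ (σ : K) : Matrix (Fin n) (Fin n) K := 1 + σ • N1 e a - σ • N2 e b

/-- its inverse -/
noncomputable def QQ' (σ : K) : Matrix (Fin n) (Fin n) K := 1 - σ • N1 e a + σ • N2 e b

variable {e a b}

theorem QQ_inv (he : Function.Injective e) (hab : a ≠ b) (haK : ∀ i, eK e i ≠ a)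
    (hbL : ∀ i, eL e i ≠ b) (σ : K) : QQ' e a b σ * QQ e a b σ = 1 := by
  have hKa : chK (K := K) e a = 0 := if_neg fun ⟨i, hi⟩ => haK i hi
  have hLb : chL (K := K) e b = 0 := if_neg fun ⟨i, hi⟩ => hbL i hi
  have h11 : N1 (K := K) e a * N1 e a = 0 := by
    unfold N1
    rw [vecMulVec_mul_vecMulVec, dotProduct_single, hKa, zero_mul, zero_smul, vecMulVec_zero]
  have h22 : N2 (K := K) e b * N2 e b = 0 := by
    unfold N2
    rw [vecMulVec_mul_vecMulVec, single_dotProduct, hLb, mul_zero, zero_smul, vecMulVec_zero]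
  have h21 : N2 (K := K) e b * N1 e a = 0 := by
    unfold N1 N2
    rw [vecMulVec_mul_vecMulVec, single_dotProduct, Pi.single_eq_of_ne hab.symm, mul_zero,
      zero_smul, vecMulVec_zero]
  have h12 : N1 (K := K) e a * N2 e b = 0 := by
    unfold N1 N2
    rw [vecMulVec_mul_vecMulVec]
    have : chK (K := K) e ⬝ᵥ chL e = 0 := by
      unfold dotProduct chK chL
      refine sum_eq_zero fun x _ => ?_
      by_cases h1 : ∃ i, eK e i = x
      · by_cases h2 : ∃ i, eL e i = x
        · obtain ⟨i, hi⟩ := h1
          obtain ⟨j, hj⟩ := h2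
          exact absurd (hj.trans hi.symm) (ne_LK he j i)
        · rw [if_neg h2, mul_zero]
      · rw [if_neg h1, zero_mul]
    rw [this, zero_smul, vecMulVec_zero]
  unfold QQ' QQ
  have : (1 - σ • N1 e a + σ • N2 e b) * (1 + σ • N1 e a - σ • N2 e b) =
      1 - (σ * σ) • (N1 e a * N1 e a) + (σ * σ) • (N1 e a * N2 e b) +
      (σ * σ) • (N2 e b * N1 e a) - (σ * σ) • (N2 e b * N2 (K := K) e b) := by
    simp only [add_mul, sub_mul, mul_add, mul_sub, Matrix.smul_mul, Matrix.mul_smul, one_mul,
      mul_one, smul_smul]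
    abel
  rw [this, h11, h12, h21, h22]
  simp

theorem QQ_entry (haL : ∀ i, eL e i ≠ a) (hbK : ∀ i, eK e i ≠ b) (σ : K)
    (W : Matrix (Fin n) (Fin n) K) (k i : Fin r) :
    (QQ' e a b σ * W * QQ e a b σ) (eL e k) (eK e i) =
      W (eL e k) (eK e i) + σ * (W b (eK e i) + W (eL e k) a) + σ ^ 2 * W b a := by
  have hL : ∀ (M : Matrix (Fin n) (Fin n) K) (y : Fin n),
      (QQ' e a b σ * M) (eL e k) y = M (eL e k) y + σ * M b y := by
    intro M y
    unfold QQ' N1 N2
    rw [add_mul, sub_mul, one_mul, Matrix.smul_mul, Matrix.smul_mul, vecMulVec_mul,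
      vecMulVec_mul, single_one_vecMul]
    simp only [Matrix.add_apply, Matrix.sub_apply, Matrix.smul_apply, vecMulVec_apply,
      Pi.single_eq_of_ne (haL k), chL_eL, Matrix.row_apply, smul_eq_mul, zero_mul, mul_zero,
      sub_zero, one_mul]
  have hR : ∀ (M : Matrix (Fin n) (Fin n) K) (x : Fin n),
      (M * QQ e a b σ) x (eK e i) = M x (eK e i) + σ * M x a := by
    intro M x
    unfold QQ N1 N2
    rw [mul_sub, mul_add, mul_one, Matrix.mul_smul, Matrix.mul_smul, mul_vecMulVec,
      mul_vecMulVec, mulVec_single_one]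
    simp only [Matrix.add_apply, Matrix.sub_apply, Matrix.smul_apply, vecMulVec_apply,
      Pi.single_eq_of_ne (hbK i), chK_eK, Matrix.col_apply, smul_eq_mul, mul_zero,
      sub_zero, mul_one]
  rw [hR, hL, hL]
  ring

end Q

theorem exists_perm {α : Type*} [DecidableEq α] {x y a b : α} (h : x ≠ y) (h' : a ≠ b) :
    ∃ π : Equiv.Perm α, π x = a ∧ π y = b := by
  refine ⟨(Equiv.swap x a).trans (Equiv.swap (Equiv.swap x a y) b), ?_, ?_⟩
  · rw [Equiv.trans_apply, Equiv.swap_apply_left]
    apply Equiv.swap_apply_of_ne_of_ne _ h'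
    intro h1
    have h2 : Equiv.swap x a x = Equiv.swap x a y := by
      rw [Equiv.swap_apply_left, ← h1]
    exact h ((Equiv.swap x a).injective h2)
  · rw [Equiv.trans_apply, Equiv.swap_apply_left]

/-- **One linear combination of the entries of `p(X)`.** -/
theorem rank_combination [Infinite K] (hn : 2 * r + 2 * q ≤ n) (p : Polynomial K)
    (hr : r + 2 ≤ p.natDegree) (W : Matrix (Fin n) (Fin n) K)
    (hW : ∀ c : K, W ≠ Matrix.scalar _ c) (C : Circuit K (Fin n × Fin n)) (v : Fin C.nodes)
    (hv : C.poly v = Matrix.trace (W.map MvPolynomial.C * Polynomial.aeval (Gn K n) p)) :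
    RankLE K r q q (6 * C.nonscalarCount) := by
  classical
  rcases Nat.eq_zero_or_pos q with hq | hq
  · subst hq
    exact ⟨fun _ => 0, fun _ => 0, fun _ => 0, fun _ _ j => j.elim0⟩
  obtain ⟨S, S', a, b, hS, hab, hne⟩ := exists_conj W hW
  obtain ⟨e₀, he₀⟩ : ∃ e₀ : Ix r q → Fin n, Function.Injective e₀ := by
    have h1 : Fintype.card (Ix r q) ≤ Fintype.card (Fin n) := by
      simp only [Fintype.card_sum, Fintype.card_fin]
      omega
    obtain ⟨f⟩ := Function.Embedding.nonempty_of_card_le h1
    exact ⟨f, f.injective⟩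
  obtain ⟨π, hπa, hπb⟩ := exists_perm (ne_IJ he₀ ⟨0, hq⟩ ⟨0, hq⟩) hab
  set e : Ix r q → Fin n := fun z => π (e₀ z) with hee
  have he : Function.Injective e := π.injective.comp he₀
  have ha : eI e ⟨0, hq⟩ = a := hπa
  have hb : eJ e ⟨0, hq⟩ = b := hπb
  obtain ⟨l, m, hG⟩ := exists_gg p r hr
  set W' := S' * W * S with hW'
  obtain ⟨σ, hσ⟩ := exists_sigma (Matrix.of fun k i => gg p (l i) (m k))
    (Matrix.of fun k i => W' (eL e k) (eK e i))
    (Matrix.of fun k i => W' b (eK e i) + W' (eL e k) a) hG hne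
  have hinv : QQ' e a b σ * QQ e a b σ = 1 := by
    apply QQ_inv he hab
    · intro i h
      rw [← ha] at h
      exact absurd h (he.ne (by simp))
    · intro i h
      rw [← hb] at h
      exact absurd h (he.ne (by simp))
  refine rank_of_det (P := S * QQ e a b σ) (P' := QQ' e a b σ * S') he ?_ p W l m ?_ C v hv
  · calc QQ' e a b σ * S' * (S * QQ e a b σ) = QQ' e a b σ * (S' * S) * QQ e a b σ := by
          simp only [mul_assoc]
      _ = 1 := by rw [hS, mul_one, hinv]
  · have h1 : QQ' e a b σ * S' * W * (S * QQ e a b σ) = QQ' e a b σ * W' * QQ e a b σ := by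
      rw [hW']
      simp only [mul_assoc]
    have h2 : ∀ k i : Fin r, (QQ' e a b σ * S' * W * (S * QQ e a b σ)) (eL e k) (eK e i) =
        W' (eL e k) (eK e i) + σ * (W' b (eK e i) + W' (eL e k) a) + σ ^ 2 * W' b a := by
      intro k i
      rw [h1]
      apply QQ_entry
      · intro i h
        rw [← ha] at h
        exact absurd h (he.ne (by simp))
      · intro i h
        rw [← hb] at h
        exact absurd h (he.ne (by simp))
    simp only [h2]
    exact hσ

theorem trank_combination [Infinite K] (hn : 2 * r + 2 * q ≤ n) (p : Polynomial K)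
    (hr : r + 2 ≤ p.natDegree) (W : Matrix (Fin n) (Fin n) K)
    (hW : ∀ c : K, W ≠ Matrix.scalar _ c) (C : Circuit K (Fin n × Fin n)) (v : Fin C.nodes)
    (hv : C.poly v = Matrix.trace (W.map MvPolynomial.C * Polynomial.aeval (Gn K n) p)) :
    trank K r q q ≤ 6 * C.nonscalarCount :=
  Nat.sInf_le (rank_combination hn p hr W hW C v hv)

/-- **One entry of `p(X)`.** -/
theorem trank_entry [Infinite K] (hn : 2 * r + 2 * q ≤ n) (p : Polynomial K)
    (hr : r + 2 ≤ p.natDegree) (i j : Fin n) (C : Circuit K (Fin n × Fin n)) (v : Fin C.nodes)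
    (hv : C.poly v = Polynomial.aeval (Gn K n) p i j) :
    trank K r q q ≤ 6 * C.nonscalarCount := by
  classical
  rcases Nat.eq_zero_or_pos q with hq | hq
  · subst hq
    have : RankLE K r 0 0 0 := ⟨fun _ => 0, fun _ => 0, fun _ => 0, fun _ _ j => j.elim0⟩
    exact (Nat.sInf_le this).trans (Nat.zero_le _)
  · refine trank_combination hn p hr (Matrix.single j i 1) ?_ C v ?_
    · intro c hc
      by_cases hij : i = j
      · subst hij
        have h1 : ∃ x : Fin n, x ≠ i := by
          have : Nontrivial (Fin n) := Fin.nontrivial_iff_two_le.2 (by omega)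
          exact exists_ne i
        obtain ⟨x, hx⟩ := h1
        have h2 := congrFun (congrFun hc i) i
        have h3 := congrFun (congrFun hc x) x
        rw [Matrix.scalar_apply, Matrix.diagonal_apply_eq] at h2 h3
        rw [Matrix.single_apply_same] at h2
        rw [Matrix.single_apply_of_ne _ _ _ _ _ (fun h => hx h.1.symm)] at h3
        rw [← h3] at h2
        exact one_ne_zero h2
      · have h2 := congrFun (congrFun hc j) i
        rw [Matrix.scalar_apply, Matrix.diagonal_apply_ne _ (Ne.symm hij),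
          Matrix.single_apply_same] at h2
        exact one_ne_zero h2
    · rw [hv]
      have h1 : (Matrix.single j i (1 : K)).map (MvPolynomial.C (σ := Fin n × Fin n)) =
          Matrix.single j i (1 : MvPolynomial (Fin n × Fin n) K) := by
        ext x y
        rw [Matrix.map_apply, Matrix.single_apply, Matrix.single_apply]
        split_ifs
        · rw [map_one]
        · rw [map_zero]
      rw [h1, Matrix.trace_single_mul, one_smul]

end Run7.h432.ME
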