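import Pool.Agent.Run7.h432.ME.Deriv
import Pool.Agent.Run7.h432.ME.Det
import Pool.Agent.Run7.h128.SI.Assemble

set_option autoImplicit false
set_option linter.unusedSectionVars false

/-!
# A circuit for one linear combination of the entries of `p(X)` multiplies matrices
-/

namespace Run7.h432.ME

open Finset MvPolynomial Matrix Run7.h128.SI Pool.Agent.H522R2 Pool.Agent.H522R2.Circuit
  Pool.Agent.W956.KF

variable {K : Type*} [Field K] {n : ℕ}

section conj

variable {P P' : Matrix (Fin n) (Fin n) K}

theorem cj_mul (h : P' * P = 1) (A B : Matrix (Fin n) (Fin n) K) :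
    P * A * P' * (P * B * P') = P * (A * B) * P' := by
  calc P * A * P' * (P * B * P') = P * A * (P' * P) * B * P' := by simp only [mul_assoc]
    _ = P * (A * B) * P' := by rw [h, mul_one]; simp only [mul_assoc]

theorem cj_pow (h : P' * P = 1) (A : Matrix (Fin n) (Fin n) K) (t : ℕ) :
    (P * A * P') ^ t = P * A ^ t * P' := by
  induction t with
  | zero => rw [pow_zero, pow_zero, mul_one, mul_eq_one_comm.1 h]
  | succ t ih => rw [pow_succ, ih, cj_mul h, ← pow_succ]

theorem Chain.conj (h : P' * P = 1) {M A B C' : Matrix (Fin n) (Fin n) K} (hc : Chain M A B C') :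
    Chain (P * M * P') (P * A * P') (P * B * P') (P * C' * P') where
  MB := by rw [cj_mul h, hc.MB, mul_zero, zero_mul]
  MC := by rw [cj_mul h, hc.MC, mul_zero, zero_mul]
  AM := by rw [cj_mul h, hc.AM, mul_zero, zero_mul]
  BM := by rw [cj_mul h, hc.BM, mul_zero, zero_mul]
  AC := by rw [cj_mul h, hc.AC, mul_zero, zero_mul]
  BA := by rw [cj_mul h, hc.BA, mul_zero, zero_mul]
  CA t := by rw [cj_pow h, cj_mul h, cj_mul h, hc.CA, mul_zero, zero_mul]
  CB t := by rw [cj_pow h, cj_mul h, cj_mul h, hc.CB, mul_zero, zero_mul]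

end conj

theorem diag_single (d : Fin n → K) (x y : Fin n) (c : K) :
    diagonal d * Matrix.single x y c = d x • Matrix.single x y c := by
  ext i j
  rw [Matrix.diagonal_mul, Matrix.smul_apply, smul_eq_mul, Matrix.single_apply]
  split_ifs with h
  · rw [h.1]
  · rw [mul_zero, mul_zero]

theorem single_diag (d : Fin n → K) (x y : Fin n) (c : K) :
    Matrix.single x y c * diagonal d = d y • Matrix.single x y c := by
  ext i j
  rw [Matrix.mul_diagonal, Matrix.smul_apply, smul_eq_mul, Matrix.single_apply]
  split_ifs with h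
  · rw [h.2, mul_comm]
  · rw [mul_zero, zero_mul]

/-- the index set of the families -/
abbrev Ix (r q : ℕ) : Type := (Fin r ⊕ Fin r) ⊕ (Fin q ⊕ Fin q)

section

variable {r q : ℕ} (e : Ix r q → Fin n)

/-- the four families of indices -/
def eK (i : Fin r) : Fin n := e (.inl (.inl i))
/-- the four families of indices -/
def eL (i : Fin r) : Fin n := e (.inl (.inr i))
/-- the four families of indices -/
def eI (i : Fin q) : Fin n := e (.inr (.inl i))
/-- the four families of indices -/
def eJ (i : Fin q) : Fin n := e (.inr (.inr i))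

/-- the base point -/
noncomputable def dg (l m : Fin r → K) : Fin n → K :=
  Function.extend e (Sum.elim (Sum.elim l m) 0) 0

/-- the directions -/
def dA (i : Fin r) (j : Fin q) : Matrix (Fin n) (Fin n) K := Matrix.single (eK e i) (eI e j) 1
/-- the directions -/
def dB (j k : Fin q) : Matrix (Fin n) (Fin n) K := Matrix.single (eI e j) (eJ e k) 1
/-- the directions -/
def dC (c : Fin r → K) (k : Fin q) : Matrix (Fin n) (Fin n) K :=
  ∑ x, c x • Matrix.single (eJ e k) (eL e x) 1

variable {e} (he : Function.Injective e)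
include he

theorem dg_K (l m : Fin r → K) (i : Fin r) : dg e l m (eK e i) = l i :=
  he.extend_apply _ _ _

theorem dg_L (l m : Fin r → K) (i : Fin r) : dg e l m (eL e i) = m i :=
  he.extend_apply _ _ _

theorem dg_I (l m : Fin r → K) (i : Fin q) : dg e l m (eI e i) = 0 :=
  he.extend_apply _ _ _

theorem dg_J (l m : Fin r → K) (i : Fin q) : dg e l m (eJ e i) = 0 :=
  he.extend_apply _ _ _

theorem ne_IJ (a b : Fin q) : eI e a ≠ eJ e b := he.ne (by simp)
theorem ne_JK (a : Fin q) (b : Fin r) : eJ e a ≠ eK e b := he.ne (by simp)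
theorem ne_LK (a b : Fin r) : eL e a ≠ eK e b := he.ne (by simp)
theorem ne_LI (a : Fin r) (b : Fin q) : eL e a ≠ eI e b := he.ne (by simp)
theorem ne_II {a b : Fin q} (h : a ≠ b) : eI e a ≠ eI e b := he.ne (by simpa using h)
theorem ne_JJ {a b : Fin q} (h : a ≠ b) : eJ e a ≠ eJ e b := he.ne (by simpa using h)

theorem dC_pow_mul (l m c : Fin r → K) (k : Fin q) (t : ℕ) :
    dC e c k * diagonal (dg e l m) ^ t = dC e (fun x => c x * m x ^ t) k := by
  unfold dC
  rw [Matrix.diagonal_pow, sum_mul]
  refine sum_congr rfl fun x _ => ?_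
  rw [Matrix.smul_mul, single_diag, smul_smul, Pi.pow_apply, dg_L he]

theorem chain (l m c : Fin r → K) (i : Fin r) (j j' k k' : Fin q) :
    Chain (diagonal (dg e l m)) (dA e i j) (dB e j' k) (dC e c k') where
  MB := by rw [dB, diag_single, dg_I he, zero_smul]
  MC := by
    unfold dC
    rw [mul_sum]
    refine sum_eq_zero fun x _ => ?_
    rw [Matrix.mul_smul, diag_single, dg_J he, zero_smul, smul_zero]
  AM := by rw [dA, single_diag, dg_I he, zero_smul]
  BM := by rw [dB, single_diag, dg_J he, zero_smul]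
  AC := by
    unfold dC dA
    rw [mul_sum]
    refine sum_eq_zero fun x _ => ?_
    rw [Matrix.mul_smul, Matrix.single_mul_single_of_ne _ _ _ _ (ne_IJ he _ _), smul_zero]
  BA := by
    unfold dB dA
    rw [Matrix.single_mul_single_of_ne _ _ _ _ (ne_JK he _ _)]
  CA t := by
    rw [dC_pow_mul he]
    unfold dC dA
    rw [sum_mul]
    refine sum_eq_zero fun x _ => ?_
    rw [Matrix.smul_mul, Matrix.single_mul_single_of_ne _ _ _ _ (ne_LK he _ _), smul_zero]
  CB t := by
    rw [dC_pow_mul he]
    unfold dC dB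
    rw [sum_mul]
    refine sum_eq_zero fun x _ => ?_
    rw [Matrix.smul_mul, Matrix.single_mul_single_of_ne _ _ _ _ (ne_LI he _ _), smul_zero]

theorem prod_dir (c : Fin r → K) (i : Fin r) (j j' k k' : Fin q) :
    dA e i j * dB e j' k * dC e c k' =
      if j = j' ∧ k = k' then ∑ x, c x • Matrix.single (eK e i) (eL e x) (1 : K) else 0 := by
  by_cases hj : j = j'
  · subst hj
    by_cases hk : k = k'
    · subst hk
      rw [if_pos ⟨rfl, rfl⟩]
      unfold dA dB dC
      rw [Matrix.single_mul_single_same, mul_sum]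
      refine sum_congr rfl fun x _ => ?_
      rw [Matrix.mul_smul, Matrix.single_mul_single_same, mul_one, mul_one]
    · rw [if_neg fun h => hk h.2]
      unfold dA dB dC
      rw [Matrix.single_mul_single_same, mul_sum]
      refine sum_eq_zero fun x _ => ?_
      rw [Matrix.mul_smul, Matrix.single_mul_single_of_ne _ _ _ _
        (ne_JJ he hk), smul_zero]
  · rw [if_neg fun h => hj h.1]
    unfold dA dB
    rw [Matrix.single_mul_single_of_ne _ _ _ _ (ne_II he hj), zero_mul]

theorem third_value {P P' : Matrix (Fin n) (Fin n) K} (h : P' * P = 1)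
    (p : Polynomial K) (W : Matrix (Fin n) (Fin n) K) (l m c : Fin r → K) (i : Fin r)
    (j j' k k' : Fin q) :
    eval (vc (P * diagonal (dg e l m) * P')) (dd (vc (P * dA e i j * P'))
      (dd (vc (P * dB e j' k * P')) (dd (vc (P * dC e c k' * P'))
      (Matrix.trace (W.map C * Polynomial.aeval (Gn K n) p))))) =
    if j = j' ∧ k = k' then
      ∑ x, c x * (gg p (l i) (m x) * (P' * W * P) (eL e x) (eK e i)) else 0 := by
  rw [third_trace ((chain he l m c i j j' k k').conj h)]
  have h1 : ∀ (s t : ℕ), Matrix.trace (W * ((P * diagonal (dg e l m) * P') ^ s *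
      (P * dA e i j * P' * (P * dB e j' k * P') * (P * dC e c k' * P')) *
      (P * diagonal (dg e l m) * P') ^ t)) =
      if j = j' ∧ k = k' then
      ∑ x, c x * (l i ^ s * m x ^ t * (P' * W * P) (eL e x) (eK e i)) else 0 := by
    intro s t
    rw [cj_pow h, cj_pow h, cj_mul h, cj_mul h, cj_mul h, cj_mul h, prod_dir he]
    have h2 : ∀ Y : Matrix (Fin n) (Fin n) K, Matrix.trace (W * (P * Y * P')) =
        Matrix.trace (P' * W * P * Y) := by
      intro Y
      rw [← mul_assoc, Matrix.trace_mul_comm]
      simp only [mul_assoc]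
    rw [h2]
    split_ifs with hc
    · rw [mul_sum, sum_mul, mul_sum, Matrix.trace_sum]
      refine sum_congr rfl fun x _ => ?_
      rw [Matrix.mul_smul, Matrix.diagonal_pow, diag_single, smul_smul, Matrix.smul_mul,
        Matrix.diagonal_pow, single_diag, smul_smul, Matrix.mul_smul, Matrix.trace_smul,
        Matrix.trace_mul_single, MulOpposite.op_one, one_smul, Pi.pow_apply, Pi.pow_apply,
        dg_K he, dg_L he, smul_eq_mul]
      ring
    · rw [mul_zero, zero_mul, mul_zero, Matrix.trace_zero]
  simp only [h1]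
  split_ifs with hc
  · have h3 : ∀ f : ℕ, p.coeff (f + 3) * ∑ s ∈ range (f + 1),
        ∑ x, c x * (l i ^ s * m x ^ (f - s) * (P' * W * P) (eL e x) (eK e i)) =
        ∑ x, c x * ((p.coeff (f + 3) * ∑ s ∈ range (f + 1), l i ^ s * m x ^ (f - s)) *
          (P' * W * P) (eL e x) (eK e i)) := by
      intro f
      rw [sum_comm, mul_sum]
      refine sum_congr rfl fun x _ => ?_
      rw [← mul_sum, ← sum_mul]
      ring
    rw [sum_congr rfl fun f _ => h3 f, sum_comm]
    refine sum_congr rfl fun x _ => ?_
    rw [← mul_sum, ← sum_mul]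
    rfl
  · simp only [sum_const_zero, mul_zero]

end

end Run7.h432.ME
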