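import Pool.Agent.W956.KF.Sizes
import Pool.Agent.W956.KF.Growth

set_option autoImplicit false
set_option linter.unusedSectionVars false

/-!
# One entry of `p(X)` by few matrix multiplications
-/

namespace Run7.h432.ME

open Finset MvPolynomial Matrix Pool.Agent.H522R2 Pool.Agent.H522R2.Circuit Pool.Agent.W956.KF

variable {K : Type} [Field K]

theorem costMM_sizeMM (K : Type) [Field K] (m : ℕ) : CostMM K (Fin m) (sizeMM K m) := by
  intro R _ _ T hT A B hA hB
  let φ : MvPolynomial ((Fin m × Fin m) ⊕ (Fin m × Fin m)) K →+* R :=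
    MvPolynomial.eval₂Hom (algebraMap K R) (Sum.elim (fun v => A v.1 v.2) fun v => B v.1 v.2)
  refine ((cost_MM_sizeMM K m).map φ).mono ?_ ?_ le_rfl
  · rintro _ ⟨_, ⟨v, rfl⟩ | ⟨c, rfl⟩, rfl⟩
    · rcases v with v | v
      · have : φ (X (Sum.inl v)) = A v.1 v.2 := by simp [φ]
        rw [this]
        exact hA _ _
      · have : φ (X (Sum.inr v)) = B v.1 v.2 := by simp [φ]
        rw [this]
        exact hB _ _
    · have : φ (C c) = algebraMap K R c := by simp [φ]
      rw [this]
      exact hT c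
  · rintro _ ⟨i, j, rfl⟩
    refine ⟨_, ⟨(i, j), rfl⟩, ?_⟩
    simp only [entryMM, map_sum, map_mul, Matrix.mul_apply]
    refine Finset.sum_congr rfl fun k _ => ?_
    simp [φ]

section

variable {R : Type} [CommRing R] [Algebra K R] {T : Set R} {m s : ℕ}
  (hs : CostMM K (Fin m) s) (hT : ∀ c : K, algebraMap K R c ∈ T) (A : Matrix (Fin m) (Fin m) R)
  (hA : ∀ i j, A i j ∈ T)
include hs hT hA

theorem cost_pow (e : ℕ) (he : 1 ≤ e) :
    Cost T {x | ∃ i j, x = (A ^ e) i j} (2 * Nat.log 2 e * s) := by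
  induction e using Nat.strong_induction_on with
  | _ e ih =>
    rcases Nat.lt_or_ge e 2 with h2 | h2
    · have h1 : e = 1 := by omega
      subst h1
      refine Cost.of_subset ?_ _
      rintro x ⟨i, j, rfl⟩
      rw [pow_one]
      exact hA i j
    · have hlog : Nat.log 2 e = Nat.log 2 (e / 2) + 1 :=
        Nat.log_of_one_lt_of_le (by norm_num) h2
      have h1 := ih (e / 2) (by omega) (by omega)
      set T1 : Set R := {x | ∃ i j, x = (A ^ (e / 2)) i j} with hT1
      set T2 : Set R := {x | ∃ i j, x = (A ^ (e / 2) * A ^ (e / 2)) i j} with hT2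
      have h3 : Cost (T ∪ T1) T2 s :=
        hs R _ (fun c => Or.inl (hT c)) _ _ (fun i j => Or.inr ⟨i, j, rfl⟩)
          (fun i j => Or.inr ⟨i, j, rfl⟩)
      have h4 : Cost (T ∪ (T1 ∪ T2)) {x | ∃ i j, x = (A ^ (e / 2) * A ^ (e / 2) * A) i j} s :=
        hs R _ (fun c => Or.inl (hT c)) _ _ (fun i j => Or.inr (Or.inr ⟨i, j, rfl⟩))
          (fun i j => Or.inl (hA i j))
      refine ((h1.comp h3).comp h4).mono subset_rfl ?_ ?_
      · rintro x ⟨i, j, rfl⟩
        rcases Nat.even_or_odd' e with ⟨f, hf | hf⟩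
        · left; right
          refine ⟨i, j, ?_⟩
          have e1 : e / 2 + e / 2 = e := by omega
          rw [← pow_add, e1]
        · right
          refine ⟨i, j, ?_⟩
          have e1 : e / 2 + e / 2 + 1 = e := by omega
          rw [← pow_add, ← pow_succ, e1]
      · rw [hlog]
        apply le_of_eq
        ring

theorem cost_powers (e : ℕ) (he : 1 ≤ e) (c : ℕ) :
    Cost T {x | ∃ k ≤ c, ∃ i j, x = (A ^ (e * k)) i j} ((2 * Nat.log 2 e + c) * s) := by
  have h0 : ∀ i j, (1 : Matrix (Fin m) (Fin m) R) i j ∈ T := by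
    intro i j
    by_cases h : i = j
    · subst h
      rw [Matrix.one_apply_eq]
      simpa using hT 1
    · rw [Matrix.one_apply_ne h]
      simpa using hT 0
  have h1 := cost_pow hs hT A hA e he
  have h2 : ∀ c : ℕ, Cost T ({x | ∃ i j, x = (A ^ e) i j} ∪
      {x | ∃ k ≤ c, ∃ i j, x = (A ^ (e * k)) i j}) ((2 * Nat.log 2 e + c) * s) := by
    intro c
    induction c with
    | zero =>
      refine (h1.comp (Cost.of_subset (P := {x | ∃ k ≤ 0, ∃ i j, x = (A ^ (e * k)) i j}) ?_
        0)).mono subset_rfl subset_rfl (le_of_eq (by ring))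
      rintro x ⟨k, hk, i, j, rfl⟩
      have : k = 0 := by omega
      subst this
      rw [mul_zero, pow_zero]
      exact Or.inl (h0 i j)
    | succ c ih =>
      have h3 : Cost (T ∪ ({x | ∃ i j, x = (A ^ e) i j} ∪
          {x | ∃ k ≤ c, ∃ i j, x = (A ^ (e * k)) i j}))
          {x | ∃ i j, x = (A ^ e * A ^ (e * c)) i j} s :=
        hs R _ (fun c => Or.inl (hT c)) _ _ (fun i j => Or.inr (Or.inl ⟨i, j, rfl⟩))
          (fun i j => Or.inr (Or.inr ⟨c, le_rfl, i, j, rfl⟩))
      refine (ih.comp h3).mono subset_rfl ?_ (le_of_eq (by ring))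
      rintro x (h | ⟨k, hk, i, j, rfl⟩)
      · exact Or.inl (Or.inl h)
      · rcases Nat.lt_or_ge k (c + 1) with hk' | hk'
        · exact Or.inl (Or.inr ⟨k, by omega, i, j, rfl⟩)
        · have : k = c + 1 := by omega
          subst this
          right
          refine ⟨i, j, ?_⟩
          have e1 : e + e * c = e * (c + 1) := by ring
          rw [← pow_add, e1]
  exact (h2 c).mono subset_rfl Set.subset_union_right le_rfl

theorem cost_krylov (y : Fin m) (j : ℕ) (hj : 2 ^ j ≤ 2 * m) :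
    Cost T ({x | ∃ a b, x = (A ^ (2 ^ j)) a b} ∪ {x | ∃ i < 2 ^ j, ∃ a, x = (A ^ i) a y})
      (2 * j * s) := by
  induction j with
  | zero =>
    refine Cost.of_subset ?_ _
    rintro x (⟨a, b, rfl⟩ | ⟨i, hi, a, rfl⟩)
    · rw [pow_zero, pow_one]
      exact hA a b
    · have : i = 0 := by
        rw [pow_zero] at hi
        omega
      subst this
      rw [pow_zero]
      by_cases h : a = y
      · subst h
        rw [Matrix.one_apply_eq]
        simpa using hT 1
      · rw [Matrix.one_apply_ne h]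
        simpa using hT 0
  | succ j ih =>
    have hj' : 2 ^ j ≤ m := by
      rw [pow_succ] at hj
      omega
    have h1 := ih (by omega)
    set E : Set R := {x | ∃ a b, x = (A ^ (2 ^ j)) a b} ∪
      {x | ∃ i < 2 ^ j, ∃ a, x = (A ^ i) a y} with hE
    set B : Matrix (Fin m) (Fin m) R := Matrix.of fun a c =>
      if (c : ℕ) < 2 ^ j then (A ^ (c : ℕ)) a y else 0 with hB
    have h2 : Cost (T ∪ E) {x | ∃ a b, x = (A ^ (2 ^ j) * A ^ (2 ^ j)) a b} s :=
      hs R _ (fun c => Or.inl (hT c)) _ _ (fun a b => Or.inr (Or.inl ⟨a, b, rfl⟩))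
        (fun a b => Or.inr (Or.inl ⟨a, b, rfl⟩))
    have h3 : Cost (T ∪ E) {x | ∃ a b, x = (A ^ (2 ^ j) * B) a b} s := by
      refine hs R _ (fun c => Or.inl (hT c)) _ _ (fun a b => Or.inr (Or.inl ⟨a, b, rfl⟩))
        (fun a b => ?_)
      rw [hB, Matrix.of_apply]
      split_ifs with h
      · exact Or.inr (Or.inr ⟨b, h, a, rfl⟩)
      · left
        simpa using hT 0
    refine (h1.comp (h2.union h3)).mono subset_rfl ?_ (le_of_eq (by ring))
    rintro x (⟨a, b, rfl⟩ | ⟨i, hi, a, rfl⟩)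
    · right; left
      refine ⟨a, b, ?_⟩
      have e1 : 2 ^ j + 2 ^ j = 2 ^ (j + 1) := by ring
      rw [← pow_add, e1]
    · rcases Nat.lt_or_ge i (2 ^ j) with h | h
      · exact Or.inl (Or.inr ⟨i, h, a, rfl⟩)
      · right; right
        have hlt : i - 2 ^ j < 2 ^ j := by
          rw [pow_succ] at hi
          omega
        refine ⟨a, ⟨i - 2 ^ j, by omega⟩, ?_⟩
        have e1 : i = 2 ^ j + (i - 2 ^ j) := by omega
        conv_lhs => rw [e1, pow_add]
        rw [Matrix.mul_apply, Matrix.mul_apply]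
        refine sum_congr rfl fun k _ => ?_
        rw [hB, Matrix.of_apply, if_pos hlt]

/-- one entry of a polynomial in a matrix -/
theorem cost_entry (hm : 1 ≤ m) (c : ℕ) (p : Polynomial K) (hp : p.natDegree ≤ c * m)
    (x y : Fin m) :
    Cost T {Polynomial.aeval A p x y}
      ((4 * Nat.log 2 m + c + 2) * s + 4 * (c + 1) * m ^ 2) := by
  have h0 : (0 : R) ∈ T := by simpa using hT 0
  have hm0 : m ≠ 0 := by omega
  have h1 := cost_powers hs hT A hA m hm c
  have h2 := cost_krylov hs hT A hA y (Nat.log 2 m + 1) (by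
    rw [pow_succ]
    have := Nat.pow_log_le_self 2 hm0
    omega)
  set PW : Set R := {x | ∃ k ≤ c, ∃ i j, x = (A ^ (m * k)) i j} with hPW
  set KR : Set R := {x | ∃ i < m, ∃ a, x = (A ^ i) a y} with hKR
  have h2' : Cost T KR (2 * (Nat.log 2 m + 1) * s) := by
    refine h2.mono subset_rfl ?_ le_rfl
    rintro z ⟨i, hi, a, rfl⟩
    exact Or.inr ⟨i, hi.trans (Nat.lt_pow_succ_log_self (by norm_num) m), a, rfl⟩
  -- the combinations
  set u : Fin (c + 1) × Fin m → R := fun t => ∑ i : Fin m,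
    algebraMap K R (p.coeff (i + m * t.1)) * (A ^ (i : ℕ)) t.2 y with hu
  have h3 : Cost (T ∪ (PW ∪ KR)) (Set.range u) (Fintype.card (Fin (c + 1) × Fin m) *
      (2 * Fintype.card (Fin m))) := by
    refine Cost.range fun t => ?_
    refine Cost.sum_mul (T := T ∪ (PW ∪ KR)) (Or.inl h0) (fun i : Fin m => algebraMap K R (p.coeff (i + m * t.1)))
      (fun i : Fin m => (A ^ (i : ℕ)) t.2 y) (fun i => Or.inl (hT _)) fun i => ?_
    exact Or.inr (Or.inr ⟨i, i.2, t.2, rfl⟩)
  have h4 : Cost (T ∪ ((PW ∪ KR) ∪ Set.range u))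
      {∑ t : Fin (c + 1) × Fin m, (A ^ (m * (t.1 : ℕ))) x t.2 * u t}
      (2 * Fintype.card (Fin (c + 1) × Fin m)) := by
    refine Cost.sum_mul (T := T ∪ ((PW ∪ KR) ∪ Set.range u)) (Or.inl h0)
      (fun t : Fin (c + 1) × Fin m => (A ^ (m * (t.1 : ℕ))) x t.2)
      u (fun t => Or.inr (Or.inl (Or.inl ⟨t.1, ?_, x, t.2, rfl⟩))) fun t =>
        Or.inr (Or.inr ⟨t, rfl⟩)
    have := t.1.2
    omega
  refine (((h1.union h2').comp h3).comp h4).mono subset_rfl ?_ ?_
  · rintro _ rfl
    right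
    show Polynomial.aeval A p x y = _
    have hdeg : p.natDegree < (c + 1) * m := by
      have : (c + 1) * m = c * m + m := by ring
      omega
    rw [Polynomial.aeval_eq_sum_range' hdeg, Finset.sum_range (n := (c + 1) * m),
      ← finProdFinEquiv.sum_comp, Fintype.sum_prod_type, Matrix.sum_apply,
      Fintype.sum_prod_type]
    refine sum_congr rfl fun k _ => ?_
    rw [Matrix.sum_apply]
    have e1 : ∀ i : Fin m, (p.coeff ((finProdFinEquiv (k, i) : Fin ((c + 1) * m)) : ℕ) •
        A ^ ((finProdFinEquiv (k, i) : Fin ((c + 1) * m)) : ℕ)) x y =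
        ∑ z, (A ^ (m * (k : ℕ))) x z *
          (algebraMap K R (p.coeff (i + m * k)) * (A ^ (i : ℕ)) z y) := by
      intro i
      rw [finProdFinEquiv_apply_val, Matrix.smul_apply, add_comm, pow_add, Matrix.mul_apply,
        smul_sum]
      refine sum_congr rfl fun z _ => ?_
      rw [Algebra.smul_def, add_comm (m * (k : ℕ))]
      ring
    rw [sum_congr rfl fun i _ => e1 i, sum_comm]
    refine sum_congr rfl fun z _ => ?_
    rw [← mul_sum]
  · simp only [Fintype.card_prod, Fintype.card_fin]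
    have hmm : m ≤ m ^ 2 := Nat.le_self_pow (by norm_num) m
    have e1 : (2 * Nat.log 2 m + c) * s + 2 * (Nat.log 2 m + 1) * s =
        (4 * Nat.log 2 m + c + 2) * s := by ring
    have e2 : (c + 1) * m * (2 * m) + 2 * ((c + 1) * m) ≤ 4 * (c + 1) * m ^ 2 := by
      have : (c + 1) * m ≤ (c + 1) * m ^ 2 := Nat.mul_le_mul_left _ hmm
      nlinarith
    omega

end

end Run7.h432.ME
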