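import Pool.Agent.Run7.h432.ME.Main
import Pool.Agent.Run7.h432.ME.Upper

set_option autoImplicit false
set_option linter.unusedSectionVars false

/-!
# The least size of a circuit for one entry
-/

namespace Run7.h432.ME

open Finset MvPolynomial Matrix Filter Run7.h128.SI Pool.Agent.H522R2 Pool.Agent.H522R2.Circuit
  Pool.Agent.W956.KF Pool.Agent.H826R3.SM

/-- The least size of a circuit over `K` which computes at least one entry of the matrix `p(X)`,
where `X` is the generic `m × m` matrix. -/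
noncomputable def entrySize (K : Type) [Field K] (m : ℕ) (p : Polynomial K) : ℕ :=
  sInf {s | ∃ (C : Circuit K (Fin m × Fin m)) (v : Fin C.nodes) (i j : Fin m),
    C.poly v = Polynomial.aeval (Matrix.mvPolynomialX (Fin m) (Fin m) K) p i j ∧ C.size = s}

variable {K : Type} [Field K]

theorem exists_circuit_entry {m : ℕ} (hm : 1 ≤ m) (c : ℕ) (p : Polynomial K)
    (hp : p.natDegree ≤ c * m) (i j : Fin m) :
    ∃ (C : Circuit K (Fin m × Fin m)) (v : Fin C.nodes),
      C.poly v = Polynomial.aeval (Matrix.mvPolynomialX (Fin m) (Fin m) K) p i j ∧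
      C.size ≤ (4 * Nat.log 2 m + c + 2) * sizeMM K m + 4 * (c + 1) * m ^ 2 := by
  have h1 := cost_entry (costMM_sizeMM K m) (R := MvPolynomial (Fin m × Fin m) K)
    (T := inputs K (Fin m × Fin m)) C_mem_inputs (Matrix.mvPolynomialX (Fin m) (Fin m) K)
    (fun a b => X_mem_inputs _) hm c p hp i j
  obtain ⟨C, h2, h3⟩ := exists_circuit_of_cost (Set.finite_singleton _) h1
  obtain ⟨v, hv⟩ := h3 _ rfl
  exact ⟨C, v, hv, h2⟩

theorem entrySize_le {m : ℕ} (hm : 1 ≤ m) (c : ℕ) (p : Polynomial K)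
    (hp : p.natDegree ≤ c * m) :
    entrySize K m p ≤ (4 * Nat.log 2 m + c + 2) * sizeMM K m + 4 * (c + 1) * m ^ 2 := by
  obtain ⟨C, v, h1, h2⟩ := exists_circuit_entry hm c p hp ⟨0, hm⟩ ⟨0, hm⟩
  exact le_trans (Nat.sInf_le ⟨C, v, ⟨0, hm⟩, ⟨0, hm⟩, h1, rfl⟩) h2

theorem exists_entrySize {m : ℕ} (hm : 1 ≤ m) (p : Polynomial K) :
    ∃ (C : Circuit K (Fin m × Fin m)) (v : Fin C.nodes) (i j : Fin m),
    C.poly v = Polynomial.aeval (Matrix.mvPolynomialX (Fin m) (Fin m) K) p i j ∧
      C.size = entrySize K m p := by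
  obtain ⟨C, v, h1, -⟩ := exists_circuit_entry hm p.natDegree p
    (Nat.le_mul_of_pos_right _ hm) ⟨0, hm⟩ ⟨0, hm⟩
  exact Nat.sInf_mem (s := {s | ∃ (C : Circuit K (Fin m × Fin m)) (v : Fin C.nodes)
    (i j : Fin m), C.poly v = Polynomial.aeval (Matrix.mvPolynomialX (Fin m) (Fin m) K) p i j ∧
      C.size = s}) ⟨_, C, v, ⟨0, hm⟩, ⟨0, hm⟩, h1, rfl⟩

theorem trank_le_entrySize [Infinite K] {m r q : ℕ} (hm : 1 ≤ m) (hn : 2 * r + 2 * q ≤ m)
    (p : Polynomial K) (hr : r + 2 ≤ p.natDegree) :
    trank K r q q ≤ 6 * entrySize K m p := by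
  obtain ⟨C, v, i, j, h1, h2⟩ := exists_entrySize hm p
  have h3 := trank_entry hn p hr i j C v h1
  have h4 := (C.nonscalarCount_le_mulCount).trans C.mulCount_le_size
  omega

/-! ### circuits without gates -/

theorem poly_of_size_zero {V : Type} {C : Circuit K V} (h : C.size = 0) (v : Fin C.nodes) :
    (∃ x, C.poly v = X x) ∨ ∃ c, C.poly v = MvPolynomial.C c := by
  unfold Circuit.size at h
  rw [Nat.card_eq_zero] at h
  have h1 : ¬ ((∃ i j, C.gate v = Gate.add i j) ∨ ∃ i j, C.gate v = Gate.mul i j) := by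
    intro h'
    rcases h with h | h
    · exact h.elim ⟨v, h'⟩
    · exact not_finite_iff_infinite.2 h inferInstance
  rw [Circuit.poly]
  cases hg : C.gate v with
  | const c => exact Or.inr ⟨c, rfl⟩
  | add i j => exact absurd (Or.inl ⟨i, j, hg⟩) h1
  | mul i j => exact absurd (Or.inr ⟨i, j, hg⟩) h1
  | var p => exact Or.inl ⟨p, rfl⟩

/-- two polynomials in one variable -/
theorem natDegree_le_one_of_eval [Infinite K] (p : Polynomial K) (a b : K)
    (h : ∀ t : K, p.eval t = a * t + b) : p.natDegree ≤ 1 := by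
  have h1 : p = Polynomial.C a * Polynomial.X + Polynomial.C b := by
    apply Polynomial.funext
    intro t
    rw [h]
    simp
  rw [h1]
  exact Polynomial.natDegree_linear_le

theorem entrySize_pos [Infinite K] {m : ℕ} (hm : 1 ≤ m) (p : Polynomial K)
    (hp : 2 ≤ p.natDegree) : 1 ≤ entrySize K m p := by
  classical
  by_contra hcon
  obtain ⟨C, v, i, j, h1, h2⟩ := exists_entrySize hm p
  have h3 : C.size = 0 := by omega
  -- an idempotent matrix
  obtain ⟨N, hN, hNij⟩ : ∃ N : Matrix (Fin m) (Fin m) K, N * N = N ∧ N i j = 1 := by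
    by_cases hij : i = j
    · subst hij
      refine ⟨Matrix.single i i 1, ?_, Matrix.single_apply_same _ _ _⟩
      rw [Matrix.single_mul_single_same, mul_one]
    · refine ⟨Matrix.single i j 1 + Matrix.single j j 1, ?_, ?_⟩
      · rw [mul_add, add_mul, add_mul, Matrix.single_mul_single_same,
          Matrix.single_mul_single_same, Matrix.single_mul_single_of_ne _ _ _ _ (Ne.symm hij),
          Matrix.single_mul_single_of_ne _ _ _ _ (Ne.symm hij), mul_one, zero_add, zero_add]
      · rw [Matrix.add_apply, Matrix.single_apply_same,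
          Matrix.single_apply_of_ne _ _ _ _ _ (fun h => hij h.1.symm), add_zero]
  have hpow : ∀ k, N ^ (k + 1) = N := by
    intro k
    induction k with
    | zero => rw [zero_add, pow_one]
    | succ k ih => rw [pow_succ, ih, hN]
  have hval : ∀ t : K, Polynomial.aeval (t • N) p =
      p.coeff 0 • (1 : Matrix (Fin m) (Fin m) K) + (p.eval t - p.coeff 0) • N := by
    intro t
    rw [Polynomial.aeval_eq_sum_range, Polynomial.eval_eq_sum_range, sum_range_succ',
      sum_range_succ' (fun k => p.coeff k * t ^ k)]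
    rw [pow_zero, pow_zero, mul_one, add_sub_cancel_right, add_comm, sum_smul]
    congr 1
    refine sum_congr rfl fun k _ => ?_
    rw [smul_pow, hpow, smul_smul]
  have hev : ∀ t : K, eval (vc (t • N)) (C.poly v) = Polynomial.aeval (t • N) p i j := by
    intro t
    rw [h1]
    have e1 : (eval (vc (t • N))) (Polynomial.aeval (Matrix.mvPolynomialX (Fin m) (Fin m) K) p i j) =
        ev (t • N) (Polynomial.aeval (Gn K m) p) i j := rfl
    rw [e1, Polynomial.aeval_eq_sum_range, Polynomial.aeval_eq_sum_range, map_sum]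
    refine congrFun (congrFun (sum_congr rfl fun k _ => ?_) i) j
    have e2 : p.coeff k • Gn K m ^ k = (p.coeff k • (1 : Matrix (Fin m) (Fin m) K)).map
        MvPolynomial.C * Gn K m ^ k := by
      have : (p.coeff k • (1 : Matrix (Fin m) (Fin m) K)).map MvPolynomial.C =
          (p.coeff k) • (1 : Matrix (Fin m) (Fin m) (MvPolynomial (Fin m × Fin m) K)) := by
        ext1 a b
        rw [Matrix.map_apply, Matrix.smul_apply, Matrix.smul_apply, smul_eq_mul, map_mul,
          MvPolynomial.smul_eq_C_mul]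
        congr 1
        by_cases hab : a = b
        · subst hab
          rw [Matrix.one_apply_eq, Matrix.one_apply_eq, map_one]
        · rw [Matrix.one_apply_ne hab, Matrix.one_apply_ne hab, map_zero]
      rw [this, smul_mul_assoc, one_mul]
    rw [e2, map_mul, map_pow, ev_gen, ev_const, smul_mul_assoc, one_mul]
  have hlin : ∃ a b : K, ∀ t : K, p.eval t = a * t + b := by
    have h4 : ∀ t : K, eval (vc (t • N)) (C.poly v) =
        p.coeff 0 * (1 : Matrix (Fin m) (Fin m) K) i j + (p.eval t - p.coeff 0) := by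
      intro t
      rw [hev, hval, Matrix.add_apply, Matrix.smul_apply, Matrix.smul_apply, hNij, smul_eq_mul,
        smul_eq_mul, mul_one]
    rcases poly_of_size_zero h3 v with ⟨x, hx⟩ | ⟨c, hc⟩
    · refine ⟨N x.1 x.2, p.coeff 0 - p.coeff 0 * (1 : Matrix (Fin m) (Fin m) K) i j,
        fun t => ?_⟩
      have h5 := h4 t
      rw [hx, eval_X] at h5
      have h6 : vc (t • N) x = t * N x.1 x.2 := rfl
      rw [h6] at h5
      linear_combination -h5
    · refine ⟨0, c + p.coeff 0 - p.coeff 0 * (1 : Matrix (Fin m) (Fin m) K) i j, fun t => ?_⟩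
      have h5 := h4 t
      rw [hc, eval_C] at h5
      linear_combination -h5
  obtain ⟨a, b, h⟩ := hlin
  have := natDegree_le_one_of_eval p a b h
  omega

theorem sizeMM_pos [Infinite K] {m : ℕ} (hm : 1 ≤ m) : 1 ≤ sizeMM K m := by
  by_contra hcon
  obtain ⟨C, h1, h2⟩ := exists_circuit_MM K m
  have h3 : C.size = 0 := by omega
  obtain ⟨v, hv⟩ := h1 ⟨0, hm⟩ ⟨0, hm⟩
  let pt : K → (Fin m × Fin m) ⊕ (Fin m × Fin m) → K := fun t =>
    Sum.elim (fun x => if x = (⟨0, hm⟩, ⟨0, hm⟩) then t else 0)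
      (fun x => if x = (⟨0, hm⟩, ⟨0, hm⟩) then t else 0)
  have h4 : ∀ t, eval (pt t) (entryMM K m ⟨0, hm⟩ ⟨0, hm⟩) = t * t := by
    intro t
    unfold entryMM
    rw [map_sum, Finset.sum_eq_single ⟨0, hm⟩]
    · simp [pt]
    · intro k _ hk
      simp [pt, hk]
    · intro h
      exact absurd (mem_univ _) h
  have h5 : ∃ a b : K, ∀ t : K, (Polynomial.X * Polynomial.X : Polynomial K).eval t =
      a * t + b := by
    rcases poly_of_size_zero h3 v with ⟨x, hx⟩ | ⟨c, hc⟩
    · rcases x with x | x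
      · refine ⟨if x = (⟨0, hm⟩, ⟨0, hm⟩) then 1 else 0, 0, fun t => ?_⟩
        rw [Polynomial.eval_mul, Polynomial.eval_X, ← h4 t, ← hv, hx, eval_X]
        simp only [pt, Sum.elim_inl]
        split_ifs <;> ring
      · refine ⟨if x = (⟨0, hm⟩, ⟨0, hm⟩) then 1 else 0, 0, fun t => ?_⟩
        rw [Polynomial.eval_mul, Polynomial.eval_X, ← h4 t, ← hv, hx, eval_X]
        simp only [pt, Sum.elim_inr]
        split_ifs <;> ring
    · refine ⟨0, c, fun t => ?_⟩
      rw [Polynomial.eval_mul, Polynomial.eval_X, ← h4 t, ← hv, hc, eval_C]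
      ring
  obtain ⟨a, b, h⟩ := h5
  have h6 := natDegree_le_one_of_eval _ a b h
  rw [Polynomial.natDegree_mul Polynomial.X_ne_zero Polynomial.X_ne_zero,
    Polynomial.natDegree_X] at h6
  omega

end Run7.h432.ME
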